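import Pool.Agent.Work.MP_9390ab_lc.FourPoint

/-!
# Types of leaf distances

For every weighted tree with the leaves `0, .., n - 1` there are `p, r : Fin n → Fin n` such that
`dist u v = a u + a v - 2 h (K p r u v)`, where `K` is defined by recursion from `p` and `r` only.
-/

set_option autoImplicit false

namespace Pool.Agent.PCG.Count

/-- The index of the value of `s i j`, with fuel. -/
def KK {n : ℕ} (p r : Fin n → Fin n) : ℕ → Fin n → Fin n → Fin n
  | 0, i, _ => i
  | t + 1, i, j =>
    if j < i then
      (if p i = j then i else if r i ≤ r (KK p r t (p i) j) then i else KK p r t (p i) j)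
    else
      (if p j = i then j else if r j ≤ r (KK p r t (p j) i) then j else KK p r t (p j) i)

/-- The index of the value of `s i j`. -/
def K {n : ℕ} (p r : Fin n → Fin n) (i j : Fin n) : Fin n := KK p r (2 * n) i j

theorem step {n : ℕ} {s : Fin n → Fin n → ℝ} (hs : ∀ i j, s i j = s j i)
    (hu : ∀ i j k, min (s i j) (s j k) ≤ s i k) {i j q : Fin n} (h1 : s i j ≤ s i q) :
    s i j = min (s i q) (s q j) := by
  apply le_antisymm
  · refine le_min h1 ?_
    have h2 := hu q i j
    rw [hs q i, min_eq_right h1] at h2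
    exact h2
  · exact hu i q j

theorem KK_spec {n : ℕ} {s : Fin n → Fin n → ℝ} (hs : ∀ i j, s i j = s j i)
    (hu : ∀ i j k, min (s i j) (s j k) ≤ s i k) {p r : Fin n → Fin n} {h : Fin n → ℝ}
    (hp : ∀ i j : Fin n, j < i → p i < i ∧ s i j ≤ s i (p i)) (hh : ∀ i, h i = s i (p i))
    (hr : ∀ i k, r i ≤ r k ↔ h i ≤ h k) :
    ∀ (t : ℕ) (i j : Fin n), i ≠ j → (i : ℕ) + j < t → s i j = h (KK p r t i j) := by
  intro t
  induction t with
  | zero => intro i j _ h; omega
  | succ t ih =>
    have key : ∀ i j : Fin n, j < i → (i : ℕ) + j < t + 1 →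
        s i j = h (if p i = j then i else if r i ≤ r (KK p r t (p i) j) then i
          else KK p r t (p i) j) := by
      intro i j hji hlt
      obtain ⟨h1, h2⟩ := hp i j hji
      by_cases h3 : p i = j
      · rw [if_pos h3, hh i, h3]
      · rw [if_neg h3]
        have h4 := ih (p i) j h3 (by
          have : ((p i : Fin n) : ℕ) < (i : ℕ) := h1
          omega)
        rw [step hs hu h2, h4, ← hh i]
        by_cases h5 : r i ≤ r (KK p r t (p i) j)
        · rw [if_pos h5]
          exact min_eq_left ((hr _ _).1 h5)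
        · rw [if_neg h5]
          refine min_eq_right ?_
          by_contra hc
          exact h5 ((hr _ _).2 (not_le.1 hc).le)
    intro i j hij hlt
    rw [KK]
    by_cases hji : j < i
    · rw [if_pos hji]
      exact key i j hji hlt
    · rw [if_neg hji, hs i j]
      exact key j i (lt_of_le_of_ne (not_lt.1 hji) hij) (by omega)

/-- The rank of a value. -/
theorem rank {n : ℕ} (h : Fin n → ℝ) : ∃ r : Fin n → Fin n, ∀ i k, r i ≤ r k ↔ h i ≤ h k := by
  classical
  let c : Fin n → ℕ := fun i => (Finset.univ.filter (fun k => h k < h i)).card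
  have hc : ∀ i, c i < n := by
    intro i
    have h1 : Finset.univ.filter (fun k => h k < h i) ⊂ (Finset.univ : Finset (Fin n)) := by
      rw [Finset.ssubset_iff_of_subset (Finset.subset_univ _)]
      exact ⟨i, Finset.mem_univ _, by simp⟩
    have h2 := Finset.card_lt_card h1
    rwa [Finset.card_univ, Fintype.card_fin] at h2
  refine ⟨fun i => ⟨c i, hc i⟩, fun i k => ?_⟩
  have h3 : ∀ i k, h i ≤ h k → c i ≤ c k := by
    intro i k hik
    refine Finset.card_le_card fun x hx => ?_
    rw [Finset.mem_filter] at hx ⊢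
    exact ⟨hx.1, lt_of_lt_of_le hx.2 hik⟩
  constructor
  · intro hik
    by_contra hcon
    have h4 : c k < c i := by
      refine Finset.card_lt_card ?_
      rw [Finset.ssubset_iff_of_subset ?_]
      · exact ⟨k, by simp [not_le.1 hcon], by simp⟩
      · intro x hx
        rw [Finset.mem_filter] at hx ⊢
        exact ⟨hx.1, hx.2.trans (not_le.1 hcon)⟩
    have h5 : c i ≤ c k := hik
    omega
  · intro hik
    exact h3 i k hik

theorem exists_types {n : ℕ} {s : Fin n → Fin n → ℝ} (hs : ∀ i j, s i j = s j i)
    (hu : ∀ i j k, min (s i j) (s j k) ≤ s i k) :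
    ∃ (p r : Fin n → Fin n) (h : Fin n → ℝ), ∀ i j, i ≠ j → s i j = h (K p r i j) := by
  classical
  have hex : ∀ i : Fin n, ∃ q : Fin n, ∀ j : Fin n, j < i → q < i ∧ s i j ≤ s i q := by
    intro i
    by_cases hne : (Finset.univ.filter (fun j : Fin n => j < i)).Nonempty
    · obtain ⟨q, hq, hmax⟩ := Finset.exists_max_image _ (fun j => s i j) hne
      refine ⟨q, fun j hj => ⟨(Finset.mem_filter.1 hq).2, hmax j ?_⟩⟩
      exact Finset.mem_filter.2 ⟨Finset.mem_univ _, hj⟩
    · refine ⟨i, fun j hj => ?_⟩
      exact absurd ⟨j, Finset.mem_filter.2 ⟨Finset.mem_univ _, hj⟩⟩ hne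
  choose p hp using hex
  obtain ⟨r, hr⟩ := rank (fun i => s i (p i))
  refine ⟨p, r, fun i => s i (p i), fun i j hij => ?_⟩
  exact KK_spec hs hu hp (fun i => rfl) hr (2 * n) i j hij (by omega)

/-- **Types of leaf distances.** -/
theorem types {n : ℕ} (M : WTree (Fin n)) : ∃ (p r : Fin n → Fin n) (a h : Fin n → ℝ),
    ∀ u v, u ≠ v → M.dist u v = a u + a v - 2 * h (K p r u v) := by
  rcases Nat.eq_zero_or_pos n with h0 | h0
  · subst h0
    exact ⟨id, id, fun _ => 0, fun _ => 0, fun u => u.elim0⟩
  · let ρ : Fin n := ⟨0, h0⟩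
    have hsym := M.dist_comm
    obtain ⟨p, r, h, H⟩ := exists_types
      (s := fun u v => (M.dist u ρ + M.dist v ρ - M.dist u v) / 2)
      (fun i j => by rw [hsym i j]; ring) (fun i j k => by
        have h1 := M.four_point i k j ρ
        rw [hsym k j] at h1
        rcases le_max_iff.1 h1 with h2 | h2
        · refine (min_le_left _ _).trans ?_
          linarith
        · refine (min_le_right _ _).trans ?_
          linarith)
    refine ⟨p, r, fun u => M.dist u ρ, h, fun u v huv => ?_⟩
    have h2 := H u v huv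
    linarith

end Pool.Agent.PCG.Count
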