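import Pool.Agent.Work.MP_9390ab_lc.FourPoint

/-!
# Trees given by a parent function, and distances along short paths
-/

set_option autoImplicit false

namespace Pool.Agent.PCG

open SimpleGraph

variable {W : Type}

/-- The graph of a parent function. -/
def parGraph (par : W → Option W) (hp : ∀ a, par a ≠ some a) : SimpleGraph W where
  Adj a b := par a = some b ∨ par b = some a
  symm := ⟨fun _ _ h => h.symm⟩
  loopless := ⟨fun a h => h.elim (hp a) (hp a)⟩

/-- `Desc par x y`: the point `x` is an ancestor of `y`, or equal to `y`. -/
inductive Desc (par : W → Option W) (x : W) : W → Prop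
  | self : Desc par x x
  | step (y z : W) (h : par y = some z) (h' : Desc par x z) : Desc par x y

theorem Desc.rank {par : W → Option W} {rk : W → ℕ} (h : ∀ a b, par a = some b → rk b < rk a)
    {x y : W} (hd : Desc par x y) : rk x ≤ rk y := by
  induction hd with
  | self => exact le_rfl
  | step y z h1 _ ih => exact ih.trans (h _ _ h1).le

theorem parGraph_isTree (par : W → Option W) (rk : W → ℕ)
    (h : ∀ a b, par a = some b → rk b < rk a) (root : W) (hroot : ∀ a, par a = none → a = root)
    (hp : ∀ a, par a ≠ some a) : (parGraph par hp).IsTree := by
  constructor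
  · rw [connected_iff]
    refine ⟨?_, ⟨root⟩⟩
    have key : ∀ n a, rk a = n → (parGraph par hp).Reachable a root := by
      intro n
      induction n using Nat.strong_induction_on with
      | _ n ih =>
        intro a ha
        cases e : par a with
        | none => rw [hroot a e]
        | some b =>
          have h1 : (parGraph par hp).Adj a b := Or.inl e
          exact h1.reachable.trans (ih _ (ha ▸ h _ _ e) b rfl)
    intro a b
    exact (key _ a rfl).trans (key _ b rfl).symm
  · rw [isAcyclic_iff_forall_adj_isBridge]
    have key : ∀ x z, par x = some z → (parGraph par hp).IsBridge s(x, z) := by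
      intro x z hxz
      rw [isBridge_iff]
      intro hr
      have h1 : ∀ a b, ((parGraph par hp).deleteEdges {s(x, z)}).Adj a b →
          (Desc par x a ↔ Desc par x b) := by
        have h2 : ∀ a b, par a = some b → s(a, b) ≠ s(x, z) → (Desc par x a ↔ Desc par x b) := by
          intro a b hab hne
          constructor
          · intro hd
            cases hd with
            | self =>
              rw [hxz] at hab
              exact absurd (by rw [Option.some.inj hab]) hne
            | step _ c h3 h4 =>
              rw [hab] at h3
              rwa [Option.some.inj h3]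
          · intro hd
            exact Desc.step _ _ hab hd
        intro a b hab
        rw [deleteEdges_adj] at hab
        obtain ⟨hab | hab, h3⟩ := hab
        · exact h2 a b hab (by simpa using h3)
        · refine (h2 b a hab ?_).symm
          rw [Sym2.eq_swap]
          simpa using h3
      have h2' : ∀ u v, ((parGraph par hp).deleteEdges {s(x, z)}).Walk u v →
          (Desc par x u ↔ Desc par x v) := by
        intro u v p
        induction p with
        | nil => exact Iff.rfl
        | cons hab _ ih => exact (h1 _ _ hab).trans ih
      have h2 : Desc par x x ↔ Desc par x z := by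
        obtain ⟨p⟩ := hr
        exact h2' _ _ p
      have h3 := Desc.rank h (h2.1 Desc.self)
      exact absurd (h _ _ hxz) (by omega)
    rintro a b (hab | hab)
    · exact key a b hab
    · rw [Sym2.eq_swap]
      exact key b a hab

theorem treeDist_two {T : SimpleGraph W} (hT : T.IsTree) (w : Sym2 W → ℝ) {a b c : W}
    (h1 : T.Adj a b) (h2 : T.Adj b c) (h : [a, b, c].Nodup) :
    treeDist hT w a c = w s(a, b) + w s(b, c) := by
  rw [treeDist_eq hT w (.cons h1 (.cons h2 .nil)) (by rw [Walk.isPath_def]; simpa using h)]
  simp

theorem treeDist_three {T : SimpleGraph W} (hT : T.IsTree) (w : Sym2 W → ℝ) {a b c d : W}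
    (h1 : T.Adj a b) (h2 : T.Adj b c) (h3 : T.Adj c d) (h : [a, b, c, d].Nodup) :
    treeDist hT w a d = w s(a, b) + w s(b, c) + w s(c, d) := by
  rw [treeDist_eq hT w (.cons h1 (.cons h2 (.cons h3 .nil)))
    (by rw [Walk.isPath_def]; simpa using h)]
  simp
  ring

theorem treeDist_four {T : SimpleGraph W} (hT : T.IsTree) (w : Sym2 W → ℝ) {a b c d e : W}
    (h1 : T.Adj a b) (h2 : T.Adj b c) (h3 : T.Adj c d) (h4 : T.Adj d e)
    (h : [a, b, c, d, e].Nodup) :
    treeDist hT w a e = w s(a, b) + w s(b, c) + w s(c, d) + w s(d, e) := by
  rw [treeDist_eq hT w (.cons h1 (.cons h2 (.cons h3 (.cons h4 .nil))))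
    (by rw [Walk.isPath_def]; simpa using h)]
  simp
  ring

end Pool.Agent.PCG
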