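import Pool.Agent.Work.MP_9390ab_lc.FourPoint

/-!
# The gadgets: what a realisation must satisfy
-/

set_option autoImplicit false

namespace Pool.Agent.PCG

/-- Names of the leaves: two anchors, two leaves `rl s i` for each rung `i`, and for each of them
four further leaves. -/
inductive Nm (N : ℕ) : Type
  | anch (s : Bool)
  | rl (s : Bool) (i : Fin N)
  | gl (s : Bool) (i : Fin N) (k : Fin 4)
  deriving DecidableEq

open Nm

variable {N : ℕ}

/-- The required edges (one orientation). -/
def EAdj (link : Fin N → Fin N → Prop) : Nm N → Nm N → Prop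
  | anch s, anch s' => s = false ∧ s' = true
  | anch s, rl s' _ => s' ≠ s
  | rl s i, rl s' j => s = false ∧ s' = true ∧ link i j
  | gl s _ _, anch s' => s = s'
  | gl s i _, rl s' j => s = s' ∧ i = j
  | gl s i k, gl s' j l => s = s' ∧ i = j ∧ l = k + 2
  | _, _ => False

/-- The forbidden edges (one orientation). -/
def SAdj : Nm N → Nm N → Prop
  | rl s i, rl s' j => s = false ∧ s' = true ∧ i = j
  | anch s, rl s' _ => s = s'
  | gl s i k, gl s' j l => s = s' ∧ i = j ∧ l = k + 1
  | _, _ => False

theorem SAdj.ne {u v : Nm N} (h : SAdj u v) : u ≠ v := by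
  rintro rfl
  cases u with
  | anch s => exact h
  | rl s i =>
    obtain ⟨h1, h2, -⟩ := h
    exact absurd (h1.symm.trans h2) (by simp)
  | gl s i k =>
    obtain ⟨-, -, h⟩ := h
    revert h
    revert k
    decide

section sound

variable {link : Fin N → Fin N → Prop} (M : WTree (Nm N))
  (hE : ∀ u v, EAdj link u v → M.graph.Adj u v) (hS : ∀ u v, SAdj u v → ¬ M.graph.Adj u v)

include hS in
theorem hS' {u v : Nm N} (h : SAdj u v) : M.dist u v < M.dmin ∨ M.dmax < M.dist u v := by
  by_contra h'
  push Not at h'
  exact hS u v h ⟨h.ne, h'.1, h'.2⟩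

include hE hS

theorem exists_far (s : Bool) (i : Fin N) : ∃ k : Fin 4, M.dmax < M.dist (gl s i k) (gl s i (k + 1)) := by
  by_contra h
  push Not at h
  have h1 : ∀ k : Fin 4, M.dist (gl s i k) (gl s i (k + 1)) < M.dmin := fun k =>
    (hS' M hS (u := gl s i k) (v := gl s i (k + 1)) ⟨rfl, rfl, rfl⟩).resolve_right
      (not_lt.2 (h k))
  have h2 : ∀ k : Fin 4, M.dmin ≤ M.dist (gl s i k) (gl s i (k + 2)) := fun k =>
    (hE (gl s i k) (gl s i (k + 2)) ⟨rfl, rfl, rfl⟩).2.1
  have h3 := M.four_point (gl s i 0) (gl s i 2) (gl s i 1) (gl s i 3)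
  have a0 := h1 0
  have a1 := h1 1
  have a2 := h1 2
  have a3 := h1 3
  have b0 := h2 0
  have b1 := h2 1
  change M.dist (gl s i 0) (gl s i 1) < _ at a0
  change M.dist (gl s i 1) (gl s i 2) < _ at a1
  change M.dist (gl s i 2) (gl s i 3) < _ at a2
  change M.dist (gl s i 3) (gl s i 0) < _ at a3
  change _ ≤ M.dist (gl s i 0) (gl s i 2) at b0
  change _ ≤ M.dist (gl s i 1) (gl s i 3) at b1
  rw [M.dist_comm (gl s i 2) (gl s i 1), M.dist_comm (gl s i 0) (gl s i 3)] at h3
  rcases le_max_iff.1 h3 with h3 | h3 <;> linarith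

/-- The forced short distances. -/
theorem near (s : Bool) (i : Fin N) : M.dist (anch s) (rl s i) < M.dmin := by
  refine (hS' M hS (u := anch s) (v := rl s i) rfl).resolve_right fun h => ?_
  obtain ⟨k, hk⟩ := exists_far M hE hS s i
  have h1 := M.four_point (anch s) (rl s i) (gl s i k) (gl s i (k + 1))
  have e1 : ∀ l, M.dist (anch s) (gl s i l) ≤ M.dmax := fun l => by
    rw [M.dist_comm]; exact (hE (gl s i l) (anch s) rfl).2.2
  have e2 : ∀ l, M.dist (rl s i) (gl s i l) ≤ M.dmax := fun l => by
    rw [M.dist_comm]; exact (hE (gl s i l) (rl s i) ⟨rfl, rfl⟩).2.2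
  have := e1 k
  have := e1 (k + 1)
  have := e2 k
  have := e2 (k + 1)
  rcases le_max_iff.1 h1 with h1 | h1 <;> linarith

/-- Distances between the two columns are additive. -/
theorem additive (i j : Fin N) : M.dist (rl false i) (rl true j) =
    M.dist (rl false i) (anch true) + M.dist (anch false) (rl true j) -
      M.dist (anch false) (anch true) := by
  have n1 := near M hE hS false i
  have n2 := near M hE hS true j
  have e1 := (hE (anch true) (rl false i) (show false ≠ true by simp)).2.1
  have e2 := (hE (anch false) (rl true j) (show true ≠ false by simp)).2.1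
  rw [M.dist_comm (anch true)] at e1
  have f1 := M.four_point (rl false i) (rl true j) (anch false) (anch true)
  have f2 := M.four_point (rl false i) (anch true) (anch false) (rl true j)
  rw [M.dist_comm (rl false i) (anch false), M.dist_comm (rl true j) (anch true),
    M.dist_comm (rl true j) (anch false)] at f1
  rw [M.dist_comm (rl false i) (anch false), M.dist_comm (anch true) (anch false)] at f2
  have g1 : M.dist (rl false i) (rl true j) + M.dist (anch false) (anch true) ≤
      M.dist (rl false i) (anch true) + M.dist (anch false) (rl true j) := by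
    rcases le_max_iff.1 f1 with h | h <;> linarith
  have g2 : M.dist (rl false i) (anch true) + M.dist (anch false) (rl true j) ≤
      M.dist (rl false i) (rl true j) + M.dist (anch false) (anch true) := by
    rcases le_max_iff.1 f2 with h | h <;> linarith
  linarith

/-- What a realisation must satisfy. -/
theorem sound_real : ∃ (x y : Fin N → ℝ) (r : ℝ), 0 ≤ r ∧
    (∀ i j, link i j → |x i + y j| ≤ r) ∧ ∀ i, r < |x i + y i| := by
  have h0 := M.dmin_le_dmax
  refine ⟨fun i => M.dist (rl false i) (anch true) - (M.dmin + M.dmax) / 2,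
    fun j => M.dist (anch false) (rl true j) - M.dist (anch false) (anch true),
    (M.dmax - M.dmin) / 2, by linarith, ?_, ?_⟩
  · intro i j h
    have h1 := (hE (rl false i) (rl true j) ⟨rfl, rfl, h⟩).2
    rw [additive M hE hS] at h1
    rw [abs_le]
    constructor <;> linarith
  · intro i
    have h1 := hS' M hS (u := rl false i) (v := rl true i) ⟨rfl, rfl, rfl⟩
    rw [additive M hE hS] at h1
    rw [lt_abs]
    rcases h1 with h1 | h1
    · exact Or.inr (by linarith)
    · exact Or.inl (by linarith)

end sound

end Pool.Agent.PCG
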