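import Pool.Agent.Work.MP_9390ab_lc.ParTree
import Pool.Agent.Work.MP_9390ab_lc.Sound

/-!
# The tree of a solution
-/

set_option autoImplicit false

namespace Pool.Agent.PCG

open SimpleGraph Nm

/-- The vertices of the tree. -/
inductive Nd (N : ℕ) : Type
  | hub (s : Bool)
  | q (s : Bool) (i : Fin N)
  | c (s : Bool) (i : Fin N) (t : Bool)
  | lf (u : Nm N)
  deriving DecidableEq

open Nd

variable {N : ℕ}

instance : Finite (Nm N) := by
  refine Finite.of_injective (β := Bool ⊕ (Bool × Fin N) ⊕ (Bool × Fin N × Fin 4))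
    (fun u => match u with
      | anch s => .inl s
      | rl s i => .inr (.inl (s, i))
      | gl s i k => .inr (.inr (s, i, k))) ?_
  intro u v h
  cases u <;> cases v <;> simp_all

instance : Finite (Nd N) := by
  refine Finite.of_injective (β := Bool ⊕ (Bool × Fin N) ⊕ (Bool × Fin N × Bool) ⊕ Nm N)
    (fun u => match u with
      | hub s => .inl s
      | q s i => .inr (.inl (s, i))
      | c s i t => .inr (.inr (.inl (s, i, t)))
      | lf u => .inr (.inr (.inr u))) ?_
  intro u v h
  cases u <;> cases v <;> simp_all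

/-- The branch of the leaf `gl s i k`. -/
def tb (k : Fin 4) : Bool := decide (k = 1 ∨ k = 2)

/-- Parents. -/
def par : Nd N → Option (Nd N)
  | hub false => none
  | hub true => some (hub false)
  | q s _ => some (hub s)
  | c s i _ => some (q s i)
  | lf (anch s) => some (hub s)
  | lf (rl s _) => some (hub s)
  | lf (gl s i k) => some (c s i (tb k))

/-- Depth. -/
def rk : Nd N → ℕ
  | hub false => 0
  | hub true => 1
  | q _ _ => 2
  | c _ _ _ => 3
  | lf (anch _) => 2
  | lf (rl _ _) => 2
  | lf (gl _ _ _) => 4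

theorem par_rk (a b : Nd N) (h : par a = some b) : rk b < rk a := by
  rcases a with (_ | _) | ⟨s, i⟩ | ⟨s, i, t⟩ | (s | ⟨s, i⟩ | ⟨s, i, k⟩) <;>
    simp only [par, reduceCtorEq, Option.some.injEq] at h <;> subst h <;>
    first
      | decide
      | (cases s <;> simp [rk])
      | simp [rk]

theorem par_ne (a : Nd N) : par a ≠ some a := fun h => lt_irrefl _ (par_rk a a h)

/-- The tree. -/
def TT (N : ℕ) : SimpleGraph (Nd N) := parGraph par par_ne

theorem TT_isTree : (TT N).IsTree := by
  refine parGraph_isTree par rk par_rk (hub false) (fun a h => ?_) par_ne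
  rcases a with (_ | _) | ⟨s, i⟩ | ⟨s, i, t⟩ | (s | ⟨s, i⟩ | ⟨s, i, k⟩) <;> simp_all [par]

theorem adj_of_par {a b : Nd N} (h : par a = some b) : (TT N).Adj a b := Or.inl h

theorem par_ne_lf (a : Nd N) (u : Nm N) : par a ≠ some (lf u) := by
  rcases a with (_ | _) | ⟨s, i⟩ | ⟨s, i, t⟩ | (s | ⟨s, i⟩ | ⟨s, i, k⟩) <;> simp [par]

theorem leaf_iff (x : Nd N) : x ∈ Set.range (lf : Nm N → Nd N) ↔
    ((TT N).neighborSet x).ncard ≤ 1 := by
  have two : ∀ a b : Nd N, a ≠ b → (TT N).Adj x a → (TT N).Adj x b →
      ¬ ((TT N).neighborSet x).ncard ≤ 1 := by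
    intro a b hab ha hb
    rw [not_le, Set.one_lt_ncard_iff (Set.toFinite _)]
    exact ⟨a, b, ha, hb, hab⟩
  constructor
  · rintro ⟨u, rfl⟩
    have h : ∃ y, par (lf u) = some y := by
      cases u <;> exact ⟨_, rfl⟩
    obtain ⟨y, hy⟩ := h
    have : (TT N).neighborSet (lf u) = {y} := by
      ext z
      rw [mem_neighborSet, Set.mem_singleton_iff]
      constructor
      · rintro (h | h)
        · rw [hy] at h
          exact (Option.some.inj h).symm
        · exact absurd h (par_ne_lf z u)
      · rintro rfl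
        exact Or.inl hy
    rw [this, Set.ncard_singleton]
  · intro h
    by_contra hx
    cases x with
    | hub s =>
      refine two (hub !s) (lf (anch s)) (by simp) ?_ (Or.inr rfl) h
      cases s
      · exact Or.inr rfl
      · exact Or.inl rfl
    | q s i => exact two (hub s) (c s i false) (by simp) (Or.inl rfl) (Or.inr rfl) h
    | c s i t =>
      cases t
      · exact two (q s i) (lf (gl s i 0)) (by simp) (Or.inl rfl) (Or.inr rfl) h
      · exact two (q s i) (lf (gl s i 1)) (by simp) (Or.inl rfl) (Or.inr rfl) h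
    | lf u => exact hx ⟨u, rfl⟩

/-- Weights of the edges to the parent; `z s i` is the parameter of the leaf `rl s i`. -/
noncomputable def pw (z : Bool → Fin N → ℝ) : Nd N → ℝ
  | hub _ => 3
  | q s i => 3 / 2 - z s i / 2
  | c _ _ _ => 5
  | lf (anch _) => 9
  | lf (rl s i) => 9 + z s i
  | lf (gl _ _ k) => if k = 0 ∨ k = 1 then 49 / 8 else 39 / 8

/-- Weights of the edges. -/
noncomputable def wt (z : Bool → Fin N → ℝ) : Sym2 (Nd N) → ℝ :=
  Sym2.lift ⟨fun a b => (if par a = some b then pw z a else 0) +
    (if par b = some a then pw z b else 0), fun a b => add_comm _ _⟩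

theorem wt_par (z : Bool → Fin N → ℝ) {a b : Nd N} (h : par a = some b) :
    wt z s(a, b) = pw z a := by
  have h1 : par b ≠ some a := fun h' => lt_asymm (par_rk _ _ h) (par_rk _ _ h')
  simp [wt, h, h1]

theorem wt_par' (z : Bool → Fin N → ℝ) {a b : Nd N} (h : par a = some b) :
    wt z s(b, a) = pw z a := by
  rw [Sym2.eq_swap]
  exact wt_par z h

theorem pw_pos {z : Bool → Fin N → ℝ} (hz : ∀ s i, |z s i| ≤ 3 / 4) (a : Nd N) : 0 < pw z a := by
  rcases a with s | ⟨s, i⟩ | ⟨s, i, t⟩ | (s | ⟨s, i⟩ | ⟨s, i, k⟩)
  · simp [pw]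
  · have := abs_le.1 (hz s i)
    simp only [pw]
    linarith
  · simp [pw]
  · simp [pw]
  · have := abs_le.1 (hz s i)
    simp only [pw]
    linarith
  · simp only [pw]
    split_ifs <;> norm_num

/-- The weighted tree. -/
noncomputable def model (z : Bool → Fin N → ℝ) (hz : ∀ s i, |z s i| ≤ 3 / 4) : WTree (Nm N) where
  W := Nd N
  finite := inferInstance
  T := TT N
  isTree := TT_isTree
  wt := wt z
  wt_pos := by
    intro e
    induction e with
    | h a b =>
      rintro (h | h)
      · rw [wt_par z h]; exact pw_pos hz a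
      · rw [wt_par' z h]; exact pw_pos hz b
  leaf := lf
  leaf_injective := fun a b h => by simpa using h
  mem_range_leaf := leaf_iff
  dmin := 20
  dmax := 22
  dmin_nonneg := by norm_num
  dmin_le_dmax := by norm_num

section dist

variable (z : Bool → Fin N → ℝ) (hz : ∀ s i, |z s i| ≤ 3 / 4)

theorem dist_anch : (model z hz).dist (anch false) (anch true) = 21 := by
  have h := treeDist_three (TT_isTree (N := N)) (wt z) (a := lf (anch false)) (b := hub false)
    (c := hub true) (d := lf (anch true)) (Or.inl rfl) (Or.inr rfl) (Or.inr rfl) (by simp)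
  refine h.trans ?_
  rw [wt_par z rfl, wt_par' z rfl, wt_par' z rfl]
  simp only [pw]
  norm_num

theorem dist_anch_rl (i : Fin N) : (model z hz).dist (anch false) (rl true i) =
    21 + z true i := by
  have h := treeDist_three (TT_isTree (N := N)) (wt z) (a := lf (anch false)) (b := hub false)
    (c := hub true) (d := lf (rl true i)) (Or.inl rfl) (Or.inr rfl) (Or.inr rfl) (by simp)
  refine h.trans ?_
  rw [wt_par z rfl, wt_par' z rfl, wt_par' z rfl]
  simp only [pw]
  ring

theorem dist_anch_rl' (i : Fin N) : (model z hz).dist (anch true) (rl false i) =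
    21 + z false i := by
  have h := treeDist_three (TT_isTree (N := N)) (wt z) (a := lf (anch true)) (b := hub true)
    (c := hub false) (d := lf (rl false i)) (Or.inl rfl) (Or.inl rfl) (Or.inr rfl) (by simp)
  refine h.trans ?_
  rw [wt_par z rfl, wt_par z rfl, wt_par' z rfl]
  simp only [pw]
  ring

theorem dist_rl (i j : Fin N) : (model z hz).dist (rl false i) (rl true j) =
    21 + (z false i + z true j) := by
  have h := treeDist_three (TT_isTree (N := N)) (wt z) (a := lf (rl false i)) (b := hub false)
    (c := hub true) (d := lf (rl true j)) (Or.inl rfl) (Or.inr rfl) (Or.inr rfl) (by simp)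
  refine h.trans ?_
  rw [wt_par z rfl, wt_par' z rfl, wt_par' z rfl]
  simp only [pw]
  ring

theorem dist_near (s : Bool) (i : Fin N) : (model z hz).dist (anch s) (rl s i) =
    18 + z s i := by
  have h := treeDist_two (TT_isTree (N := N)) (wt z) (a := lf (anch s)) (b := hub s)
    (c := lf (rl s i)) (Or.inl rfl) (Or.inr rfl) (by simp)
  refine h.trans ?_
  rw [wt_par z rfl, wt_par' z rfl]
  simp only [pw]
  ring

theorem dist_gl_anch (s : Bool) (i : Fin N) (k : Fin 4) :
    (model z hz).dist (gl s i k) (anch s) =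
      (if k = 0 ∨ k = 1 then 49 / 8 else 39 / 8) + (31 / 2 - z s i / 2) := by
  have h := treeDist_four (TT_isTree (N := N)) (wt z) (a := lf (gl s i k)) (b := c s i (tb k))
    (c := q s i) (d := hub s) (e := lf (anch s)) (Or.inl rfl) (Or.inl rfl) (Or.inl rfl)
    (Or.inr rfl) (by simp)
  refine h.trans ?_
  rw [wt_par z rfl, wt_par z rfl, wt_par z rfl, wt_par' z rfl]
  simp only [pw]
  ring

theorem dist_gl_rl (s : Bool) (i : Fin N) (k : Fin 4) :
    (model z hz).dist (gl s i k) (rl s i) =
      (if k = 0 ∨ k = 1 then 49 / 8 else 39 / 8) + (31 / 2 + z s i / 2) := by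
  have h := treeDist_four (TT_isTree (N := N)) (wt z) (a := lf (gl s i k)) (b := c s i (tb k))
    (c := q s i) (d := hub s) (e := lf (rl s i)) (Or.inl rfl) (Or.inl rfl) (Or.inl rfl)
    (Or.inr rfl) (by simp)
  refine h.trans ?_
  rw [wt_par z rfl, wt_par z rfl, wt_par z rfl, wt_par' z rfl]
  simp only [pw]
  ring

theorem dist_gl_far (s : Bool) (i : Fin N) (k l : Fin 4) (h : tb k ≠ tb l) :
    (model z hz).dist (gl s i k) (gl s i l) =
      (if k = 0 ∨ k = 1 then 49 / 8 else 39 / 8) + 10 +
        (if l = 0 ∨ l = 1 then 49 / 8 else 39 / 8) := by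
  have hkl : k ≠ l := by rintro rfl; exact h rfl
  have h := treeDist_four (TT_isTree (N := N)) (wt z) (a := lf (gl s i k)) (b := c s i (tb k))
    (c := q s i) (d := c s i (tb l)) (e := lf (gl s i l)) (Or.inl rfl) (Or.inl rfl) (Or.inr rfl)
    (Or.inr rfl) (by simp [h, hkl])
  refine h.trans ?_
  rw [wt_par z rfl, wt_par z rfl, wt_par' z rfl, wt_par' z rfl]
  simp only [pw]
  ring

theorem dist_gl_near (s : Bool) (i : Fin N) (k l : Fin 4) (h : tb k = tb l) (hkl : k ≠ l) :
    (model z hz).dist (gl s i k) (gl s i l) =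
      (if k = 0 ∨ k = 1 then 49 / 8 else 39 / 8) +
        (if l = 0 ∨ l = 1 then 49 / 8 else 39 / 8) := by
  have h' := treeDist_two (TT_isTree (N := N)) (wt z) (a := lf (gl s i k)) (b := c s i (tb k))
    (c := lf (gl s i l)) (Or.inl rfl) (Or.inr (by rw [h]; rfl)) (by simp [hkl])
  refine h'.trans ?_
  rw [wt_par z rfl, wt_par' z (by rw [h]; rfl)]
  simp only [pw]

end dist

/-- Every solution of the real constraints is realised by a weighted tree. -/
theorem complete_real {link : Fin N → Fin N → Prop} {x y : Fin N → ℝ} (hx : ∀ i, |x i| ≤ 3 / 4)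
    (hy : ∀ i, |y i| ≤ 3 / 4) (h1 : ∀ i j, link i j → |x i + y j| ≤ 1)
    (h2 : ∀ i, 1 < |x i + y i|) :
    ∃ M : WTree (Nm N), (∀ u v, EAdj link u v → M.graph.Adj u v) ∧
      ∀ u v, SAdj u v → ¬ M.graph.Adj u v := by
  set z : Bool → Fin N → ℝ := fun s => if s = true then y else x with hzdef
  have hz : ∀ s i, |z s i| ≤ 3 / 4 := by
    intro s i
    cases s
    · exact hx i
    · exact hy i
  have z0 : z false = x := rfl
  have z1 : z true = y := rfl
  refine ⟨model z hz, ?_, ?_⟩
  · intro u v h
    have key : u ≠ v ∧ 20 ≤ (model z hz).dist u v ∧ (model z hz).dist u v ≤ 22 := by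
      rcases u with s | ⟨s, i⟩ | ⟨s, i, k⟩ <;> rcases v with s' | ⟨s', j⟩ | ⟨s', j, l⟩
      · obtain ⟨rfl, rfl⟩ := h
        rw [dist_anch]
        norm_num
      · have h' : s' ≠ s := h
        cases s <;> cases s'
        · exact absurd rfl h'
        · rw [dist_anch_rl]
          have := abs_le.1 (hz true j)
          exact ⟨by simp, by linarith, by linarith⟩
        · rw [dist_anch_rl']
          have := abs_le.1 (hz false j)
          exact ⟨by simp, by linarith, by linarith⟩
        · exact absurd rfl h'
      · exact absurd h id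
      · exact absurd h id
      · obtain ⟨rfl, rfl, h⟩ := h
        rw [dist_rl, z0, z1]
        have := abs_le.1 (h1 i j h)
        exact ⟨by simp, by linarith, by linarith⟩
      · exact absurd h id
      · have h' : s = s' := h
        subst h'
        rw [dist_gl_anch]
        have := abs_le.1 (hz s i)
        refine ⟨by simp, ?_, ?_⟩ <;> split_ifs <;> linarith
      · obtain ⟨rfl, rfl⟩ := h
        rw [dist_gl_rl]
        have := abs_le.1 (hz s i)
        refine ⟨by simp, ?_, ?_⟩ <;> split_ifs <;> linarith
      · obtain ⟨rfl, rfl, rfl⟩ := h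
        have ht : tb k ≠ tb (k + 2) := by revert k; decide
        have hk : k ≠ k + 2 := by revert k; decide
        have hk' : (k = 0 ∨ k = 1) ↔ ¬ (k + 2 = 0 ∨ k + 2 = 1) := by revert k; decide
        rw [dist_gl_far z hz s i k (k + 2) ht]
        refine ⟨by simp [hk], ?_, ?_⟩ <;> by_cases h : k + 2 = 0 ∨ k + 2 = 1
        · rw [if_pos h, if_neg (fun h'' => hk'.1 h'' h)]; norm_num
        · rw [if_neg h, if_pos (hk'.2 h)]; norm_num
        · rw [if_pos h, if_neg (fun h'' => hk'.1 h'' h)]; norm_num
        · rw [if_neg h, if_pos (hk'.2 h)]; norm_num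
    exact key
  · intro u v h hadj
    have key : (model z hz).dist u v < 20 ∨ 22 < (model z hz).dist u v := by
      rcases u with s | ⟨s, i⟩ | ⟨s, i, k⟩ <;> rcases v with s' | ⟨s', j⟩ | ⟨s', j, l⟩
      · exact absurd h id
      · have h' : s = s' := h
        subst h'
        rw [dist_near]
        have := abs_le.1 (hz s j)
        left
        linarith
      · exact absurd h id
      · exact absurd h id
      · obtain ⟨rfl, rfl, rfl⟩ := h
        rw [dist_rl, z0, z1]
        rcases lt_abs.1 (h2 i) with h | h
        · right; linarith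
        · left; linarith
      · exact absurd h id
      · exact absurd h id
      · exact absurd h id
      · obtain ⟨rfl, rfl, rfl⟩ := h
        have hk : ∀ k : Fin 4, k = 0 ∨ k = 1 ∨ k = 2 ∨ k = 3 := by decide
        rcases hk k with rfl | rfl | rfl | rfl
        · right
          rw [dist_gl_far z hz s i 0 (0 + 1) (by decide)]
          rw [if_pos (by decide), if_pos (by decide)]
          norm_num
        · left
          rw [dist_gl_near z hz s i 1 (1 + 1) (by decide) (by decide)]
          rw [if_pos (by decide), if_neg (by decide)]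
          norm_num
        · left
          rw [dist_gl_far z hz s i 2 (2 + 1) (by decide)]
          rw [if_neg (by decide), if_neg (by decide)]
          norm_num
        · left
          rw [dist_gl_near z hz s i 3 (3 + 1) (by decide) (by decide)]
          rw [if_neg (by decide), if_pos (by decide)]
          norm_num
    obtain ⟨-, h3, h4⟩ := hadj
    change 20 ≤ _ at h3
    change _ ≤ 22 at h4
    rcases key with h | h <;> linarith

end Pool.Agent.PCG
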