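import Pool.Agent.Work.MP_9390ab_lc.Build

/-!
# A tree with ten inner vertices
-/

set_option autoImplicit false

namespace Pool.Agent.PCG

open SimpleGraph Nm

namespace B2

theorem treeDist_five {W : Type} {T : SimpleGraph W} (hT : T.IsTree) (w : Sym2 W → ℝ)
    {a b c d e f : W} (h1 : T.Adj a b) (h2 : T.Adj b c) (h3 : T.Adj c d) (h4 : T.Adj d e)
    (h5 : T.Adj e f) (h : [a, b, c, d, e, f].Nodup) :
    treeDist hT w a f = w s(a, b) + w s(b, c) + w s(c, d) + w s(d, e) + w s(e, f) := by
  rw [treeDist_eq hT w (.cons h1 (.cons h2 (.cons h3 (.cons h4 (.cons h5 .nil)))))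
    (by rw [Walk.isPath_def]; simpa using h)]
  simp
  ring

/-- The vertices of the tree. -/
inductive Nd (N : ℕ) : Type
  | hub (s : Bool)
  | hp (s : Bool)
  | q (s : Bool)
  | c (s : Bool) (t : Bool)
  | lf (u : Nm N)
  deriving DecidableEq

open Nd

variable {N : ℕ}

instance : Finite (Nd N) := by
  refine Finite.of_injective (β := Bool ⊕ Bool ⊕ Bool ⊕ (Bool × Bool) ⊕ Nm N)
    (fun u => match u with
      | hub s => .inl s
      | hp s => .inr (.inl s)
      | q s => .inr (.inr (.inl s))
      | c s t => .inr (.inr (.inr (.inl (s, t))))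
      | lf u => .inr (.inr (.inr (.inr u)))) ?_
  intro u v h
  cases u <;> cases v <;> simp_all

/-- Parents; the leaf `rl s i` hangs at `hp s` if `σ s i`, and at `hub s` otherwise. -/
def par (σ : Bool → Fin N → Bool) : Nd N → Option (Nd N)
  | hub false => none
  | hub true => some (hub false)
  | hp s => some (hub s)
  | q s => some (hp s)
  | c s _ => some (q s)
  | lf (anch s) => some (hub s)
  | lf (rl s i) => if σ s i = true then some (hp s) else some (hub s)
  | lf (gl s _ k) => some (c s (tb k))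

/-- Depth. -/
def rk : Nd N → ℕ
  | hub false => 0
  | hub true => 1
  | hp _ => 2
  | q _ => 3
  | c _ _ => 4
  | lf (anch _) => 2
  | lf (rl _ _) => 3
  | lf (gl _ _ _) => 5

variable (σ : Bool → Fin N → Bool)

theorem par_rk (a b : Nd N) (h : par σ a = some b) : rk b < rk a := by
  rcases a with (_ | _) | s | s | ⟨s, t⟩ | (s | ⟨s, i⟩ | ⟨s, i, k⟩)
  · simp [par] at h
  · simp only [par, Option.some.injEq] at h; subst h; simp [rk]
  · simp only [par, Option.some.injEq] at h; subst h; cases s <;> simp [rk]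
  · simp only [par, Option.some.injEq] at h; subst h; simp [rk]
  · simp only [par, Option.some.injEq] at h; subst h; simp [rk]
  · simp only [par, Option.some.injEq] at h; subst h; cases s <;> simp [rk]
  · by_cases hs : σ s i = true
    · simp only [par, hs, if_true, Option.some.injEq] at h; subst h; simp [rk]
    · simp only [par, hs, if_false, Option.some.injEq] at h
      have h' : hub s = b := by simpa using h
      subst h'; cases s <;> simp [rk]
  · simp only [par, Option.some.injEq] at h; subst h; simp [rk]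

theorem par_ne (a : Nd N) : par σ a ≠ some a := fun h => lt_irrefl _ (par_rk σ a a h)

/-- The tree. -/
def TT : SimpleGraph (Nd N) := parGraph (par σ) (par_ne σ)

theorem TT_isTree : (TT σ).IsTree := by
  refine parGraph_isTree (par σ) rk (par_rk σ) (hub false) (fun a h => ?_) (par_ne σ)
  rcases a with (_ | _) | s | s | ⟨s, t⟩ | (s | ⟨s, i⟩ | ⟨s, i, k⟩)
  · rfl
  · simp [par] at h
  · simp [par] at h
  · simp [par] at h
  · simp [par] at h
  · simp [par] at h
  · by_cases hs : σ s i = true <;> simp [par, hs] at h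
  · simp [par] at h

theorem par_ne_lf (a : Nd N) (u : Nm N) : par σ a ≠ some (lf u) := by
  rcases a with (_ | _) | s | s | ⟨s, t⟩ | (s | ⟨s, i⟩ | ⟨s, i, k⟩)
  · simp [par]
  · simp [par]
  · simp [par]
  · simp [par]
  · simp [par]
  · simp [par]
  · by_cases hs : σ s i = true <;> simp [par, hs]
  · simp [par]

theorem leaf_iff (i0 : Fin N) (x : Nd N) : x ∈ Set.range (lf : Nm N → Nd N) ↔
    ((TT σ).neighborSet x).ncard ≤ 1 := by
  have two : ∀ a b : Nd N, a ≠ b → (TT σ).Adj x a → (TT σ).Adj x b →
      ¬ ((TT σ).neighborSet x).ncard ≤ 1 := by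
    intro a b hab ha hb
    rw [not_le, Set.one_lt_ncard_iff (Set.toFinite _)]
    exact ⟨a, b, ha, hb, hab⟩
  constructor
  · rintro ⟨u, rfl⟩
    have h : ∃ y, par σ (lf u) = some y := by
      rcases u with s | ⟨s, i⟩ | ⟨s, i, k⟩
      · exact ⟨_, rfl⟩
      · by_cases hs : σ s i = true
        · exact ⟨hp s, by simp [par, hs]⟩
        · exact ⟨hub s, by simp [par, hs]⟩
      · exact ⟨_, rfl⟩
    obtain ⟨y, hy⟩ := h
    have : (TT σ).neighborSet (lf u) = {y} := by
      ext z
      rw [mem_neighborSet, Set.mem_singleton_iff]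
      constructor
      · rintro (h | h)
        · rw [hy] at h
          exact (Option.some.inj h).symm
        · exact absurd h (par_ne_lf σ z u)
      · rintro rfl
        exact Or.inl hy
    rw [this, Set.ncard_singleton]
  · intro h
    by_contra hx
    cases x with
    | hub s =>
      refine two (hub !s) (lf (anch s)) (by simp) ?_ (Or.inr rfl) h
      cases s
      · exact Or.inr rfl
      · exact Or.inl rfl
    | hp s => exact two (hub s) (q s) (by simp) (Or.inl rfl) (Or.inr rfl) h
    | q s => exact two (hp s) (c s false) (by simp) (Or.inl rfl) (Or.inr rfl) h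
    | c s t =>
      cases t
      · exact two (q s) (lf (gl s i0 0)) (by simp) (Or.inl rfl) (Or.inr rfl) h
      · exact two (q s) (lf (gl s i0 1)) (by simp) (Or.inl rfl) (Or.inr rfl) h
    | lf u => exact hx ⟨u, rfl⟩

/-- Weights of the edges to the parent; `z s i` is the parameter of the leaf `rl s i`. -/
noncomputable def pw (z : Bool → Fin N → ℝ) : Nd N → ℝ
  | hub _ => 3
  | hp _ => 1 / 2
  | q _ => 11 / 8
  | c _ _ => 5
  | lf (anch _) => 9
  | lf (rl s i) => if σ s i = true then 17 / 2 + z s i else 9 + z s i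
  | lf (gl _ _ k) => if k = 0 ∨ k = 1 then 49 / 8 else 39 / 8

/-- Weights of the edges. -/
noncomputable def wt (z : Bool → Fin N → ℝ) : Sym2 (Nd N) → ℝ :=
  Sym2.lift ⟨fun a b => (if par σ a = some b then pw σ z a else 0) +
    (if par σ b = some a then pw σ z b else 0), fun a b => add_comm _ _⟩

theorem wt_par (z : Bool → Fin N → ℝ) {a b : Nd N} (h : par σ a = some b) :
    wt σ z s(a, b) = pw σ z a := by
  have h1 : par σ b ≠ some a := fun h' => lt_asymm (par_rk σ _ _ h) (par_rk σ _ _ h')
  simp [wt, h, h1]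

theorem wt_par' (z : Bool → Fin N → ℝ) {a b : Nd N} (h : par σ a = some b) :
    wt σ z s(b, a) = pw σ z a := by
  rw [Sym2.eq_swap]
  exact wt_par σ z h

theorem pw_pos {z : Bool → Fin N → ℝ} (hz : ∀ s i, |z s i| ≤ 3 / 4) (a : Nd N) :
    0 < pw σ z a := by
  rcases a with s | s | s | ⟨s, t⟩ | (s | ⟨s, i⟩ | ⟨s, i, k⟩)
  · simp [pw]
  · simp [pw]
  · simp [pw]
  · simp [pw]
  · simp [pw]
  · have := abs_le.1 (hz s i)
    simp only [pw]
    split_ifs <;> linarith
  · simp only [pw]
    split_ifs <;> norm_num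

/-- The weighted tree. -/
noncomputable def model (i0 : Fin N) (z : Bool → Fin N → ℝ) (hz : ∀ s i, |z s i| ≤ 3 / 4) :
    WTree (Nm N) where
  W := Nd N
  finite := inferInstance
  T := TT σ
  isTree := TT_isTree σ
  wt := wt σ z
  wt_pos := by
    intro e
    induction e with
    | h a b =>
      rintro (h | h)
      · rw [wt_par σ z h]; exact pw_pos σ hz a
      · rw [wt_par' σ z h]; exact pw_pos σ hz b
  leaf := lf
  leaf_injective := fun a b h => by simpa using h
  mem_range_leaf := leaf_iff σ i0
  dmin := 20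
  dmax := 22
  dmin_nonneg := by norm_num
  dmin_le_dmax := by norm_num

theorem inner_card (i0 : Fin N) (z : Bool → Fin N → ℝ) (hz : ∀ s i, |z s i| ≤ 3 / 4) :
    ((Set.range (model σ i0 z hz).leaf)ᶜ).ncard ≤ 10 := by
  have h1 : (Set.range (model σ i0 z hz).leaf)ᶜ ⊆
      (fun x : Fin 10 => (match x with
        | 0 => hub false | 1 => hub true | 2 => hp false | 3 => hp true | 4 => q false
        | 5 => q true | 6 => c false false | 7 => c false true | 8 => c true false
        | 9 => c true true : Nd N)) '' Set.univ := by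
    intro x hx
    rw [Set.image_univ]
    rcases x with (_ | _) | (_ | _) | (_ | _) | ⟨_ | _, _ | _⟩ | u
    · exact ⟨0, rfl⟩
    · exact ⟨1, rfl⟩
    · exact ⟨2, rfl⟩
    · exact ⟨3, rfl⟩
    · exact ⟨4, rfl⟩
    · exact ⟨5, rfl⟩
    · exact ⟨6, rfl⟩
    · exact ⟨7, rfl⟩
    · exact ⟨8, rfl⟩
    · exact ⟨9, rfl⟩
    · exact absurd ⟨u, rfl⟩ hx
  refine (Set.ncard_le_ncard h1 (Set.toFinite _)).trans ?_
  refine (Set.ncard_image_le (Set.toFinite _)).trans ?_
  rw [Set.ncard_univ, Nat.card_eq_fintype_card, Fintype.card_fin]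

section dist

variable (i0 : Fin N) (z : Bool → Fin N → ℝ) (hz : ∀ s i, |z s i| ≤ 3 / 4)

theorem par_pos {s : Bool} {i : Fin N} (h : σ s i = true) : par σ (lf (rl s i)) = some (hp s) := by
  simp [par, h]

theorem par_neg {s : Bool} {i : Fin N} (h : ¬ σ s i = true) :
    par σ (lf (rl s i)) = some (hub s) := by
  simp [par, h]

theorem pw_rl_pos {s : Bool} {i : Fin N} (h : σ s i = true) :
    pw σ z (lf (rl s i)) = 17 / 2 + z s i := by
  simp [pw, h]

theorem pw_rl_neg {s : Bool} {i : Fin N} (h : ¬ σ s i = true) :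
    pw σ z (lf (rl s i)) = 9 + z s i := by
  simp [pw, h]

theorem dist_anch : (model σ i0 z hz).dist (anch false) (anch true) = 21 := by
  have h := treeDist_three (TT_isTree σ) (wt σ z) (a := lf (anch false)) (b := hub false)
    (c := hub true) (d := lf (anch true)) (Or.inl rfl) (Or.inr rfl) (Or.inr rfl) (by simp)
  refine h.trans ?_
  rw [wt_par σ z rfl, wt_par' σ z rfl, wt_par' σ z rfl]
  simp only [pw]
  norm_num

theorem dist_anch_rl (i : Fin N) : (model σ i0 z hz).dist (anch false) (rl true i) =
    21 + z true i := by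
  by_cases hs : σ true i = true
  · have h := treeDist_four (TT_isTree σ) (wt σ z) (a := lf (anch false)) (b := hub false)
      (c := hub true) (d := hp true) (e := lf (rl true i)) (Or.inl rfl) (Or.inr rfl)
      (Or.inr rfl) (Or.inr (par_pos σ hs)) (by simp)
    refine h.trans ?_
    rw [wt_par σ z rfl, wt_par' σ z rfl, wt_par' σ z rfl, wt_par' σ z (par_pos σ hs),
      pw_rl_pos σ z hs]
    simp only [pw]
    ring
  · have h := treeDist_three (TT_isTree σ) (wt σ z) (a := lf (anch false)) (b := hub false)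
      (c := hub true) (d := lf (rl true i)) (Or.inl rfl) (Or.inr rfl)
      (Or.inr (par_neg σ hs)) (by simp)
    refine h.trans ?_
    rw [wt_par σ z rfl, wt_par' σ z rfl, wt_par' σ z (par_neg σ hs), pw_rl_neg σ z hs]
    simp only [pw]
    ring

theorem dist_anch_rl' (i : Fin N) : (model σ i0 z hz).dist (anch true) (rl false i) =
    21 + z false i := by
  by_cases hs : σ false i = true
  · have h := treeDist_four (TT_isTree σ) (wt σ z) (a := lf (anch true)) (b := hub true)
      (c := hub false) (d := hp false) (e := lf (rl false i)) (Or.inl rfl) (Or.inl rfl)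
      (Or.inr rfl) (Or.inr (par_pos σ hs)) (by simp)
    refine h.trans ?_
    rw [wt_par σ z rfl, wt_par σ z rfl, wt_par' σ z rfl, wt_par' σ z (par_pos σ hs),
      pw_rl_pos σ z hs]
    simp only [pw]
    ring
  · have h := treeDist_three (TT_isTree σ) (wt σ z) (a := lf (anch true)) (b := hub true)
      (c := hub false) (d := lf (rl false i)) (Or.inl rfl) (Or.inl rfl)
      (Or.inr (par_neg σ hs)) (by simp)
    refine h.trans ?_
    rw [wt_par σ z rfl, wt_par σ z rfl, wt_par' σ z (par_neg σ hs), pw_rl_neg σ z hs]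
    simp only [pw]
    ring

theorem dist_rl (i j : Fin N) : (model σ i0 z hz).dist (rl false i) (rl true j) =
    21 + (z false i + z true j) := by
  by_cases hs : σ false i = true <;> by_cases ht : σ true j = true
  · have h := treeDist_five (TT_isTree σ) (wt σ z) (a := lf (rl false i)) (b := hp false)
      (c := hub false) (d := hub true) (e := hp true) (f := lf (rl true j))
      (Or.inl (par_pos σ hs)) (Or.inl rfl) (Or.inr rfl) (Or.inr rfl) (Or.inr (par_pos σ ht))
      (by simp)
    refine h.trans ?_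
    rw [wt_par σ z (par_pos σ hs), wt_par σ z rfl, wt_par' σ z rfl, wt_par' σ z rfl,
      wt_par' σ z (par_pos σ ht), pw_rl_pos σ z hs, pw_rl_pos σ z ht]
    simp only [pw]
    ring
  · have h := treeDist_four (TT_isTree σ) (wt σ z) (a := lf (rl false i)) (b := hp false)
      (c := hub false) (d := hub true) (e := lf (rl true j))
      (Or.inl (par_pos σ hs)) (Or.inl rfl) (Or.inr rfl) (Or.inr (par_neg σ ht))
      (by simp)
    refine h.trans ?_
    rw [wt_par σ z (par_pos σ hs), wt_par σ z rfl, wt_par' σ z rfl,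
      wt_par' σ z (par_neg σ ht), pw_rl_pos σ z hs, pw_rl_neg σ z ht]
    simp only [pw]
    ring
  · have h := treeDist_four (TT_isTree σ) (wt σ z) (a := lf (rl false i))
      (b := hub false) (c := hub true) (d := hp true) (e := lf (rl true j))
      (Or.inl (par_neg σ hs)) (Or.inr rfl) (Or.inr rfl) (Or.inr (par_pos σ ht))
      (by simp)
    refine h.trans ?_
    rw [wt_par σ z (par_neg σ hs), wt_par' σ z rfl, wt_par' σ z rfl,
      wt_par' σ z (par_pos σ ht), pw_rl_neg σ z hs, pw_rl_pos σ z ht]
    simp only [pw]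
    ring
  · have h := treeDist_three (TT_isTree σ) (wt σ z) (a := lf (rl false i))
      (b := hub false) (c := hub true) (d := lf (rl true j))
      (Or.inl (par_neg σ hs)) (Or.inr rfl) (Or.inr (par_neg σ ht))
      (by simp)
    refine h.trans ?_
    rw [wt_par σ z (par_neg σ hs), wt_par' σ z rfl,
      wt_par' σ z (par_neg σ ht), pw_rl_neg σ z hs, pw_rl_neg σ z ht]
    simp only [pw]
    ring

theorem dist_near (s : Bool) (i : Fin N) : (model σ i0 z hz).dist (anch s) (rl s i) =
    18 + z s i := by
  by_cases hs : σ s i = true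
  · have h := treeDist_three (TT_isTree σ) (wt σ z) (a := lf (anch s)) (b := hub s)
      (c := hp s) (d := lf (rl s i)) (Or.inl rfl) (Or.inr rfl) (Or.inr (par_pos σ hs)) (by simp)
    refine h.trans ?_
    rw [wt_par σ z rfl, wt_par' σ z rfl, wt_par' σ z (par_pos σ hs), pw_rl_pos σ z hs]
    simp only [pw]
    ring
  · have h := treeDist_two (TT_isTree σ) (wt σ z) (a := lf (anch s)) (b := hub s)
      (c := lf (rl s i)) (Or.inl rfl) (Or.inr (par_neg σ hs)) (by simp)
    refine h.trans ?_
    rw [wt_par σ z rfl, wt_par' σ z (par_neg σ hs), pw_rl_neg σ z hs]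
    simp only [pw]
    ring

theorem dist_gl_anch (s : Bool) (i : Fin N) (k : Fin 4) :
    (model σ i0 z hz).dist (gl s i k) (anch s) =
      (if k = 0 ∨ k = 1 then 49 / 8 else 39 / 8) + 127 / 8 := by
  have h := treeDist_five (TT_isTree σ) (wt σ z) (a := lf (gl s i k)) (b := c s (tb k))
    (c := q s) (d := hp s) (e := hub s) (f := lf (anch s)) (Or.inl rfl) (Or.inl rfl)
    (Or.inl rfl) (Or.inl rfl) (Or.inr rfl) (by simp)
  refine h.trans ?_
  rw [wt_par σ z rfl, wt_par σ z rfl, wt_par σ z rfl, wt_par σ z rfl, wt_par' σ z rfl]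
  simp only [pw]
  ring

theorem dist_gl_rl_pos (s : Bool) (i : Fin N) (k : Fin 4) (hs : σ s i = true) :
    (model σ i0 z hz).dist (gl s i k) (rl s i) =
      (if k = 0 ∨ k = 1 then 49 / 8 else 39 / 8) + (119 / 8 + z s i) := by
  have h := treeDist_four (TT_isTree σ) (wt σ z) (a := lf (gl s i k)) (b := c s (tb k))
    (c := q s) (d := hp s) (e := lf (rl s i)) (Or.inl rfl) (Or.inl rfl) (Or.inl rfl)
    (Or.inr (par_pos σ hs)) (by simp)
  refine h.trans ?_
  rw [wt_par σ z rfl, wt_par σ z rfl, wt_par σ z rfl, wt_par' σ z (par_pos σ hs),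
    pw_rl_pos σ z hs]
  simp only [pw]
  ring

theorem dist_gl_rl_neg (s : Bool) (i : Fin N) (k : Fin 4) (hs : ¬ σ s i = true) :
    (model σ i0 z hz).dist (gl s i k) (rl s i) =
      (if k = 0 ∨ k = 1 then 49 / 8 else 39 / 8) + (127 / 8 + z s i) := by
  have h := treeDist_five (TT_isTree σ) (wt σ z) (a := lf (gl s i k)) (b := c s (tb k))
    (c := q s) (d := hp s) (e := hub s) (f := lf (rl s i)) (Or.inl rfl) (Or.inl rfl)
    (Or.inl rfl) (Or.inl rfl) (Or.inr (par_neg σ hs)) (by simp)
  refine h.trans ?_
  rw [wt_par σ z rfl, wt_par σ z rfl, wt_par σ z rfl, wt_par σ z rfl,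
    wt_par' σ z (par_neg σ hs), pw_rl_neg σ z hs]
  simp only [pw]
  ring

theorem dist_gl_far (s : Bool) (i : Fin N) (k l : Fin 4) (h : tb k ≠ tb l) :
    (model σ i0 z hz).dist (gl s i k) (gl s i l) =
      (if k = 0 ∨ k = 1 then 49 / 8 else 39 / 8) + 10 +
        (if l = 0 ∨ l = 1 then 49 / 8 else 39 / 8) := by
  have hkl : k ≠ l := by rintro rfl; exact h rfl
  have h := treeDist_four (TT_isTree σ) (wt σ z) (a := lf (gl s i k)) (b := c s (tb k))
    (c := q s) (d := c s (tb l)) (e := lf (gl s i l)) (Or.inl rfl) (Or.inl rfl) (Or.inr rfl)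
    (Or.inr rfl) (by simp [h, hkl])
  refine h.trans ?_
  rw [wt_par σ z rfl, wt_par σ z rfl, wt_par' σ z rfl, wt_par' σ z rfl]
  simp only [pw]
  ring

theorem dist_gl_near (s : Bool) (i : Fin N) (k l : Fin 4) (h : tb k = tb l) (hkl : k ≠ l) :
    (model σ i0 z hz).dist (gl s i k) (gl s i l) =
      (if k = 0 ∨ k = 1 then 49 / 8 else 39 / 8) +
        (if l = 0 ∨ l = 1 then 49 / 8 else 39 / 8) := by
  have h' := treeDist_two (TT_isTree σ) (wt σ z) (a := lf (gl s i k)) (b := c s (tb k))
    (c := lf (gl s i l)) (Or.inl rfl) (Or.inr (by rw [h]; rfl)) (by simp [hkl])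
  refine h'.trans ?_
  rw [wt_par σ z rfl, wt_par' σ z (by rw [h]; rfl)]
  simp only [pw]

end dist

/-- Every solution of the real constraints, with absolute values between `1/4` and `3/4`, is
realised by a weighted tree with at most ten inner vertices. -/
theorem complete_real {link : Fin N → Fin N → Prop} {x y : Fin N → ℝ} (i0 : Fin N)
    (hx : ∀ i, 1 / 4 ≤ |x i| ∧ |x i| ≤ 3 / 4) (hy : ∀ i, 1 / 4 ≤ |y i| ∧ |y i| ≤ 3 / 4)
    (h1 : ∀ i j, link i j → |x i + y j| ≤ 1) (h2 : ∀ i, 1 < |x i + y i|) :
    ∃ M : WTree (Nm N), (∀ u v, EAdj link u v → M.graph.Adj u v) ∧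
      (∀ u v, SAdj u v → ¬ M.graph.Adj u v) ∧ ((Set.range M.leaf)ᶜ).ncard ≤ 10 := by
  classical
  set z : Bool → Fin N → ℝ := fun s => if s = true then y else x with hzdef
  have hz' : ∀ s i, 1 / 4 ≤ |z s i| ∧ |z s i| ≤ 3 / 4 := by
    intro s i
    cases s
    · exact hx i
    · exact hy i
  have hz : ∀ s i, |z s i| ≤ 3 / 4 := fun s i => (hz' s i).2
  have z0 : z false = x := rfl
  have z1 : z true = y := rfl
  set σ : Bool → Fin N → Bool := fun s i => decide (0 < z s i) with hσ
  have hσ1 : ∀ s i, σ s i = true → 1 / 4 ≤ z s i ∧ z s i ≤ 3 / 4 := by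
    intro s i h
    have h' : 0 < z s i := of_decide_eq_true h
    have := hz' s i
    rwa [abs_of_pos h'] at this
  have hσ2 : ∀ s i, ¬ σ s i = true → -(3 / 4) ≤ z s i ∧ z s i ≤ -(1 / 4) := by
    intro s i h
    have h' : ¬ 0 < z s i := fun g => h (decide_eq_true g)
    have := hz' s i
    rw [abs_of_nonpos (not_lt.1 h')] at this
    constructor <;> linarith [this.1, this.2]
  refine ⟨model σ i0 z hz, ?_, ?_, inner_card σ i0 z hz⟩
  · intro u v h
    have key : u ≠ v ∧ 20 ≤ (model σ i0 z hz).dist u v ∧ (model σ i0 z hz).dist u v ≤ 22 := by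
      rcases u with s | ⟨s, i⟩ | ⟨s, i, k⟩ <;> rcases v with s' | ⟨s', j⟩ | ⟨s', j, l⟩
      · obtain ⟨rfl, rfl⟩ := h
        rw [dist_anch]
        norm_num
      · have h' : s' ≠ s := h
        cases s <;> cases s'
        · exact absurd rfl h'
        · rw [dist_anch_rl]
          have := abs_le.1 (hz true j)
          exact ⟨by simp, by linarith, by linarith⟩
        · rw [dist_anch_rl']
          have := abs_le.1 (hz false j)
          exact ⟨by simp, by linarith, by linarith⟩
        · exact absurd rfl h'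
      · exact absurd h id
      · exact absurd h id
      · obtain ⟨rfl, rfl, h⟩ := h
        rw [dist_rl, z0, z1]
        have := abs_le.1 (h1 i j h)
        exact ⟨by simp, by linarith, by linarith⟩
      · exact absurd h id
      · have h' : s = s' := h
        subst h'
        rw [dist_gl_anch]
        refine ⟨by simp, ?_, ?_⟩ <;> split_ifs <;> norm_num
      · obtain ⟨rfl, rfl⟩ := h
        by_cases hs : σ s i = true
        · rw [dist_gl_rl_pos σ i0 z hz s i k hs]
          have := hσ1 s i hs
          refine ⟨by simp, ?_, ?_⟩ <;> split_ifs <;> linarith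
        · rw [dist_gl_rl_neg σ i0 z hz s i k hs]
          have := hσ2 s i hs
          refine ⟨by simp, ?_, ?_⟩ <;> split_ifs <;> linarith
      · obtain ⟨rfl, rfl, rfl⟩ := h
        have ht : tb k ≠ tb (k + 2) := by revert k; decide
        have hk : k ≠ k + 2 := by revert k; decide
        have hk' : (k = 0 ∨ k = 1) ↔ ¬ (k + 2 = 0 ∨ k + 2 = 1) := by revert k; decide
        rw [dist_gl_far σ i0 z hz s i k (k + 2) ht]
        refine ⟨by simp [hk], ?_, ?_⟩ <;> by_cases h : k + 2 = 0 ∨ k + 2 = 1
        · rw [if_pos h, if_neg (fun h'' => hk'.1 h'' h)]; norm_num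
        · rw [if_neg h, if_pos (hk'.2 h)]; norm_num
        · rw [if_pos h, if_neg (fun h'' => hk'.1 h'' h)]; norm_num
        · rw [if_neg h, if_pos (hk'.2 h)]; norm_num
    exact key
  · intro u v h hadj
    have key : (model σ i0 z hz).dist u v < 20 ∨ 22 < (model σ i0 z hz).dist u v := by
      rcases u with s | ⟨s, i⟩ | ⟨s, i, k⟩ <;> rcases v with s' | ⟨s', j⟩ | ⟨s', j, l⟩
      · exact absurd h id
      · have h' : s = s' := h
        subst h'
        rw [dist_near]
        have := abs_le.1 (hz s j)
        left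
        linarith
      · exact absurd h id
      · exact absurd h id
      · obtain ⟨rfl, rfl, rfl⟩ := h
        rw [dist_rl, z0, z1]
        rcases lt_abs.1 (h2 i) with h | h
        · right; linarith
        · left; linarith
      · exact absurd h id
      · exact absurd h id
      · exact absurd h id
      · obtain ⟨rfl, rfl, rfl⟩ := h
        have hk : ∀ k : Fin 4, k = 0 ∨ k = 1 ∨ k = 2 ∨ k = 3 := by decide
        rcases hk k with rfl | rfl | rfl | rfl
        · right
          rw [dist_gl_far σ i0 z hz s i 0 (0 + 1) (by decide)]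
          rw [if_pos (by decide), if_pos (by decide)]
          norm_num
        · left
          rw [dist_gl_near σ i0 z hz s i 1 (1 + 1) (by decide) (by decide)]
          rw [if_pos (by decide), if_neg (by decide)]
          norm_num
        · left
          rw [dist_gl_far σ i0 z hz s i 2 (2 + 1) (by decide)]
          rw [if_neg (by decide), if_neg (by decide)]
          norm_num
        · left
          rw [dist_gl_near σ i0 z hz s i 3 (3 + 1) (by decide) (by decide)]
          rw [if_neg (by decide), if_pos (by decide)]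
          norm_num
    obtain ⟨-, h3, h4⟩ := hadj
    change 20 ≤ _ at h3
    change _ ≤ 22 at h4
    rcases key with h | h <;> linarith

end B2

end Pool.Agent.PCG
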