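import Pool.Agent.Work.MP_9390ab_lc.Nae

/-! The solution of the real constraints with lower bounds for the absolute values. -/

set_option autoImplicit false

namespace Pool.Agent.PCG

/-- Satisfiability gives a bounded solution of the real constraints; the absolute values are also
at least 1/4. -/
theorem con_of_sat2 {φ : Cnf} (h : Sat φ) : ∃ X Y : J → ℝ, Con (pad φ) 1 X Y ∧
    (∀ j ∈ Js (pad φ), 1 / 4 ≤ |X j| ∧ |X j| ≤ 3 / 4) ∧
    ∀ j ∈ Js (pad φ), 1 / 4 ≤ |Y j| ∧ |Y j| ≤ 3 / 4 := by
  obtain ⟨v, hv⟩ := h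
  have hlen : ∀ c < (pad φ).length, (clz (pad φ) c).length = (clz φ c).length + 2 := by
    intro c hc
    rw [clz_pad (by simpa [pad] using hc)]
    simp
  have hex : ∀ c, ∃ k, c < (pad φ).length → k < (clz (pad φ) c).length ∧
      col (pad φ) (chi v) (2, c, k) ≠
        col (pad φ) (chi v) (2, c, (k + 1) % (clz (pad φ) c).length) := by
    intro c
    by_cases hc : c < (pad φ).length
    · have hc' : c < φ.length := by simpa [pad] using hc
      obtain ⟨l, hl, hl'⟩ := hv _ (clz_mem hc')
      obtain ⟨m, hm, rfl⟩ := List.mem_iff_getElem.1 hl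
      have e2 := clz_pad hc'
      have h4 : ltr (pad φ) c 0 = (true, 0) := by unfold ltr; rw [e2]; rfl
      have h6 : ltr (pad φ) c (m + 2) = (((clz φ c)[m]).1, ((clz φ c)[m]).2 + 1) := by
        unfold ltr
        rw [e2]
        show ((clz φ c).map _).getD m _ = _
        rw [List.getD_eq_getElem _ _ (by simpa using hm), List.getElem_map]
      obtain ⟨k0, h1, h2⟩ := exists_change (n := (clz (pad φ) c).length)
        (f := fun k => col (pad φ) (chi v) (2, c, k)) (k1 := m + 2)
        (by rw [hlen c hc]; omega) (by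
          simp only [col, if_true, h4, h6, chi, hl']
          simp)
      exact ⟨k0, fun _ => ⟨h1, h2⟩⟩
    · exact ⟨0, fun h => absurd h hc⟩
  choose κ hκ using hex
  refine ⟨_, _, con_of_sat_aux (κ := κ) (fun c hc => by rw [hlen c hc]; omega)
    (fun c hc => hκ c hc), ?_, ?_⟩
  · intro j hj
    obtain ⟨j1, j2, j3, j4, j5⟩ := pq_bounds (κ := κ) hj
    rw [abs_mul, abs_of_pos (a := pp (pad φ) κ j) (by linarith)]
    have : |sn (col (pad φ) (chi v) j)| = 1 := by unfold sn; split_ifs <;> simp
    rw [this]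
    exact ⟨by linarith, by linarith⟩
  · intro j hj
    obtain ⟨j1, j2, j3, j4, j5⟩ := pq_bounds (κ := κ) hj
    rw [abs_mul, abs_of_pos (a := qq (pad φ) κ j) (by linarith)]
    have : |sn (col (pad φ) (chi v) j)| = 1 := by unfold sn; split_ifs <;> simp
    rw [this]
    exact ⟨by linarith, by linarith⟩

end Pool.Agent.PCG
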