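import Pool.Agent.Work.MP_9390ab_lc.Build
import Pool.Agent.Work.MP_9390ab_lc.CS2

/-!
# A tree with two inner vertices
-/

set_option autoImplicit false

namespace Pool.Agent.PCG.B3

open SimpleGraph Nm

/-- Moves the absolute value from `[1/4, 3/4]` to `[3/8, 5/8]`. -/
noncomputable def sq (x : ℝ) : ℝ := x / 2 + if 0 < x then 1 / 4 else -(1 / 4)

theorem sq_pos {x : ℝ} (h : 1 / 4 ≤ x) : sq x = x / 2 + 1 / 4 := by
  unfold sq
  rw [if_pos (by linarith)]

theorem sq_neg {x : ℝ} (h : 1 / 4 ≤ -x) : sq x = x / 2 - 1 / 4 := by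
  unfold sq
  rw [if_neg (by linarith)]
  ring

theorem sq_abs {x : ℝ} (h : 1 / 4 ≤ |x| ∧ |x| ≤ 3 / 4) : |sq x| ≤ 5 / 8 := by
  have h2 := abs_le.1 h.2
  rcases le_abs.1 h.1 with a | a
  · rw [sq_pos a, abs_le]
    constructor <;> linarith [h2.1, h2.2]
  · rw [sq_neg a, abs_le]
    constructor <;> linarith [h2.1, h2.2]

theorem sq_le {x y : ℝ} (hx : 1 / 4 ≤ |x| ∧ |x| ≤ 3 / 4) (hy : 1 / 4 ≤ |y| ∧ |y| ≤ 3 / 4)
    (h : |x + y| ≤ 1) : |sq x + sq y| ≤ 1 := by
  have h2 := abs_le.1 hx.2
  have h3 := abs_le.1 hy.2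
  have h4 := abs_le.1 h
  rcases le_abs.1 hx.1 with a | a <;> rcases le_abs.1 hy.1 with b | b
  · rw [sq_pos a, sq_pos b, abs_le]
    constructor <;> linarith [h2.1, h2.2, h3.1, h3.2, h4.1, h4.2]
  · rw [sq_pos a, sq_neg b, abs_le]
    constructor <;> linarith [h2.1, h2.2, h3.1, h3.2, h4.1, h4.2]
  · rw [sq_neg a, sq_pos b, abs_le]
    constructor <;> linarith [h2.1, h2.2, h3.1, h3.2, h4.1, h4.2]
  · rw [sq_neg a, sq_neg b, abs_le]
    constructor <;> linarith [h2.1, h2.2, h3.1, h3.2, h4.1, h4.2]

theorem sq_gt {x y : ℝ} (hx : 1 / 4 ≤ |x| ∧ |x| ≤ 3 / 4) (hy : 1 / 4 ≤ |y| ∧ |y| ≤ 3 / 4)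
    (h : 1 < |x + y|) : 1 < |sq x + sq y| := by
  have h2 := abs_le.1 hx.2
  have h3 := abs_le.1 hy.2
  have h4 := lt_abs.1 h
  rcases le_abs.1 hx.1 with a | a <;> rcases le_abs.1 hy.1 with b | b
  · rw [sq_pos a, sq_pos b, lt_abs]
    left
    rcases h4 with h4 | h4 <;> linarith [h2.1, h2.2, h3.1, h3.2]
  · exfalso
    rcases h4 with h4 | h4 <;> linarith [h2.1, h2.2, h3.1, h3.2]
  · exfalso
    rcases h4 with h4 | h4 <;> linarith [h2.1, h2.2, h3.1, h3.2]
  · rw [sq_neg a, sq_neg b, lt_abs]
    right
    rcases h4 with h4 | h4 <;> linarith [h2.1, h2.2, h3.1, h3.2]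

/-- Satisfiability gives a solution with absolute values at most `5 / 8`. -/
theorem con_of_sat3 {φ : Cnf} (h : Sat φ) : ∃ X Y : J → ℝ, Con (pad φ) 1 X Y ∧
    (∀ j ∈ Js (pad φ), |X j| ≤ 5 / 8) ∧ ∀ j ∈ Js (pad φ), |Y j| ≤ 5 / 8 := by
  obtain ⟨X, Y, h1, h2, h3⟩ := con_of_sat2 h
  refine ⟨fun j => sq (X j), fun j => sq (Y j), ⟨fun i hi j hj hl => ?_, fun j hj => ?_⟩,
    fun j hj => sq_abs (h2 j hj), fun j hj => sq_abs (h3 j hj)⟩
  · exact sq_le (h2 i hi) (h3 j hj) (h1.1 i hi j hj hl)
  · exact sq_gt (h2 j hj) (h3 j hj) (h1.2 j hj)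

/-- The vertices of the tree. -/
inductive Dn (N : ℕ) : Type
  | hb (s : Bool)
  | lv (u : Nm N)
  deriving DecidableEq

open Dn

variable {N : ℕ}

instance : Finite (Dn N) := by
  refine Finite.of_injective (β := Bool ⊕ Nm N)
    (fun u => match u with
      | hb s => .inl s
      | lv u => .inr u) ?_
  intro u v h
  cases u <;> cases v <;> simp_all

/-- The hub of a leaf. -/
def sd : Nm N → Bool
  | anch s => s
  | rl s _ => s
  | gl s _ k => if k.val % 2 = 0 then s else !s

/-- Parents. -/
def par : Dn N → Option (Dn N)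
  | hb false => none
  | hb true => some (hb false)
  | lv u => some (hb (sd u))

/-- Depth. -/
def rk : Dn N → ℕ
  | hb false => 0
  | hb true => 1
  | lv _ => 2

theorem par_rk (a b : Dn N) (h : par a = some b) : rk b < rk a := by
  rcases a with (_ | _) | u
  · simp [par] at h
  · simp only [par, Option.some.injEq] at h
    subst h
    simp [rk]
  · simp only [par, Option.some.injEq] at h
    subst h
    cases h : sd u <;> simp [rk]

theorem par_ne (a : Dn N) : par a ≠ some a := fun h => lt_irrefl _ (par_rk a a h)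

/-- The tree. -/
def TT (N : ℕ) : SimpleGraph (Dn N) := parGraph par par_ne

theorem TT_isTree : (TT N).IsTree := by
  refine parGraph_isTree par rk par_rk (hb false) (fun a h => ?_) par_ne
  rcases a with (_ | _) | u
  · rfl
  · simp [par] at h
  · simp [par] at h

theorem par_ne_lv (a : Dn N) (u : Nm N) : par a ≠ some (lv u) := by
  rcases a with (_ | _) | u <;> simp [par]

theorem adj_leaf (u : Nm N) : (TT N).Adj (lv u) (hb (sd u)) := Or.inl rfl

theorem adj_hub {a b : Bool} (h : a ≠ b) : (TT N).Adj (hb a) (hb b) := by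
  cases a <;> cases b
  · exact absurd rfl h
  · exact Or.inr rfl
  · exact Or.inl rfl
  · exact absurd rfl h

theorem leaf_iff (x : Dn N) : x ∈ Set.range (lv : Nm N → Dn N) ↔
    ((TT N).neighborSet x).ncard ≤ 1 := by
  constructor
  · rintro ⟨u, rfl⟩
    have : (TT N).neighborSet (lv u) = {hb (sd u)} := by
      ext z
      rw [mem_neighborSet, Set.mem_singleton_iff]
      constructor
      · rintro (h | h)
        · exact (Option.some.inj h).symm
        · exact absurd h (par_ne_lv z u)
      · rintro rfl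
        exact adj_leaf u
    rw [this, Set.ncard_singleton]
  · intro h
    cases x with
    | hb s =>
      exfalso
      have h2 : 1 < ((TT N).neighborSet (hb s)).ncard := by
        rw [Set.one_lt_ncard_iff (Set.toFinite _)]
        refine ⟨hb (!s), lv (anch s), adj_hub (by cases s <;> simp), ?_, by simp⟩
        exact (adj_leaf (anch s)).symm
      omega
    | lv u => exact ⟨u, rfl⟩

/-- Weights of the edges of the leaves. -/
noncomputable def lw (z : Bool → Fin N → ℝ) : Nm N → ℝ
  | anch _ => 193 / 20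
  | rl s i => 193 / 20 + z s i
  | gl _ _ k => if k.val % 2 = 0 then 11 else 10

/-- Weights of the edges to the parent. -/
noncomputable def pw (z : Bool → Fin N → ℝ) : Dn N → ℝ
  | hb _ => 17 / 10
  | lv u => lw z u

/-- Weights of the edges. -/
noncomputable def wt (z : Bool → Fin N → ℝ) : Sym2 (Dn N) → ℝ :=
  Sym2.lift ⟨fun a b => (if par a = some b then pw z a else 0) +
    (if par b = some a then pw z b else 0), fun a b => add_comm _ _⟩

theorem wt_par (z : Bool → Fin N → ℝ) {a b : Dn N} (h : par a = some b) :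
    wt z s(a, b) = pw z a := by
  have h1 : par b ≠ some a := fun h' => lt_asymm (par_rk _ _ h) (par_rk _ _ h')
  simp [wt, h, h1]

theorem wt_par' (z : Bool → Fin N → ℝ) {a b : Dn N} (h : par a = some b) :
    wt z s(b, a) = pw z a := by
  rw [Sym2.eq_swap]
  exact wt_par z h

theorem wt_hub (z : Bool → Fin N → ℝ) {a b : Bool} (h : a ≠ b) :
    wt z s(hb a, hb b) = 17 / 10 := by
  cases a <;> cases b
  · exact absurd rfl h
  · rw [wt_par' z (a := hb true) (b := hb false) rfl]
    rfl
  · rw [wt_par z (a := hb true) (b := hb false) rfl]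
    rfl
  · exact absurd rfl h

theorem pw_pos {z : Bool → Fin N → ℝ} (hz : ∀ s i, |z s i| ≤ 5 / 8) (a : Dn N) : 0 < pw z a := by
  rcases a with s | (s | ⟨s, i⟩ | ⟨s, i, k⟩)
  · simp [pw]
  · simp [pw, lw]
  · have := abs_le.1 (hz s i)
    simp only [pw, lw]
    linarith [this.1]
  · simp only [pw, lw]
    split_ifs <;> norm_num

/-- The weighted tree. -/
noncomputable def model (z : Bool → Fin N → ℝ) (hz : ∀ s i, |z s i| ≤ 5 / 8) : WTree (Nm N) where
  W := Dn N
  finite := inferInstance
  T := TT N
  isTree := TT_isTree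
  wt := wt z
  wt_pos := by
    intro e
    induction e with
    | h a b =>
      rintro (h | h)
      · rw [wt_par z h]; exact pw_pos hz a
      · rw [wt_par' z h]; exact pw_pos hz b
  leaf := lv
  leaf_injective := fun a b h => by simpa using h
  mem_range_leaf := leaf_iff
  dmin := 20
  dmax := 22
  dmin_nonneg := by norm_num
  dmin_le_dmax := by norm_num

section dist

variable (z : Bool → Fin N → ℝ) (hz : ∀ s i, |z s i| ≤ 5 / 8)

theorem dist_same {u v : Nm N} (huv : u ≠ v) (h : sd u = sd v) :
    (model z hz).dist u v = lw z u + lw z v := by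
  have h' := treeDist_two (TT_isTree (N := N)) (wt z) (a := lv u) (b := hb (sd u))
    (c := lv v) (adj_leaf u) (by rw [h]; exact (adj_leaf v).symm) (by simp [huv])
  refine h'.trans ?_
  rw [wt_par z rfl, wt_par' z (a := lv v) (by rw [h]; rfl)]
  rfl

theorem dist_diff {u v : Nm N} (h : sd u ≠ sd v) :
    (model z hz).dist u v = lw z u + 17 / 10 + lw z v := by
  have huv : u ≠ v := fun h' => h (by rw [h'])
  have h' := treeDist_three (TT_isTree (N := N)) (wt z) (a := lv u) (b := hb (sd u))
    (c := hb (sd v)) (d := lv v) (adj_leaf u) (adj_hub h) (adj_leaf v).symm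
    (by simp [huv, h])
  refine h'.trans ?_
  rw [wt_par z rfl, wt_par' z (a := lv v) rfl, wt_hub z h]
  rfl

end dist

theorem sd_even {s : Bool} {i : Fin N} {k : Fin 4} (h : k.val % 2 = 0) : sd (gl s i k) = s :=
  if_pos h

theorem sd_odd {s : Bool} {i : Fin N} {k : Fin 4} (h : ¬ k.val % 2 = 0) : sd (gl s i k) = !s :=
  if_neg h

theorem lw_even {z : Bool → Fin N → ℝ} {s : Bool} {i : Fin N} {k : Fin 4} (h : k.val % 2 = 0) :
    lw z (gl s i k) = 11 := if_pos h

theorem lw_odd {z : Bool → Fin N → ℝ} {s : Bool} {i : Fin N} {k : Fin 4}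
    (h : ¬ k.val % 2 = 0) : lw z (gl s i k) = 10 := if_neg h

theorem par_a : ∀ k : Fin 4, k.val % 2 = 0 → (k + 2).val % 2 = 0 := by decide

theorem par_b : ∀ k : Fin 4, ¬ k.val % 2 = 0 → ¬ (k + 2).val % 2 = 0 := by decide

theorem par_c : ∀ k : Fin 4, k.val % 2 = 0 → ¬ (k + 1).val % 2 = 0 := by decide

theorem par_d : ∀ k : Fin 4, ¬ k.val % 2 = 0 → (k + 1).val % 2 = 0 := by decide

/-- Every solution of the real constraints is realised by a weighted tree with two inner
vertices. -/
theorem complete_real {link : Fin N → Fin N → Prop} {x y : Fin N → ℝ} (hx : ∀ i, |x i| ≤ 5 / 8)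
    (hy : ∀ i, |y i| ≤ 5 / 8) (h1 : ∀ i j, link i j → |x i + y j| ≤ 1)
    (h2 : ∀ i, 1 < |x i + y i|) :
    ∃ M : WTree (Nm N), (∀ u v, EAdj link u v → M.graph.Adj u v) ∧
      (∀ u v, SAdj u v → ¬ M.graph.Adj u v) ∧ ((Set.range M.leaf)ᶜ).ncard ≤ 2 := by
  set z : Bool → Fin N → ℝ := fun s => if s = true then y else x with hzdef
  have hz : ∀ s i, |z s i| ≤ 5 / 8 := by
    intro s i
    cases s
    · exact hx i
    · exact hy i
  have z0 : z false = x := rfl
  have z1 : z true = y := rfl
  refine ⟨model z hz, ?_, ?_, ?_⟩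
  · intro u v h
    have key : u ≠ v ∧ 20 ≤ (model z hz).dist u v ∧ (model z hz).dist u v ≤ 22 := by
      rcases u with s | ⟨s, i⟩ | ⟨s, i, k⟩ <;> rcases v with s' | ⟨s', j⟩ | ⟨s', j, l⟩
      · obtain ⟨rfl, rfl⟩ := h
        rw [dist_diff z hz (by simp [sd])]
        simp only [lw]
        norm_num
      · have h' : s' ≠ s := h
        rw [dist_diff z hz (by simpa [sd] using h'.symm)]
        have := abs_le.1 (hz s' j)
        simp only [lw]
        exact ⟨by simp, by linarith [this.1], by linarith [this.2]⟩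
      · exact absurd h id
      · exact absurd h id
      · obtain ⟨rfl, rfl, h⟩ := h
        rw [dist_diff z hz (by simp [sd])]
        have := abs_le.1 (h1 i j h)
        simp only [lw, z0, z1]
        exact ⟨by simp, by linarith [this.1], by linarith [this.2]⟩
      · exact absurd h id
      · have h' : s = s' := h
        subst h'
        by_cases hk : k.val % 2 = 0
        · rw [dist_same z hz (by simp) (by rw [sd_even hk]; rfl), lw_even hk]
          simp only [lw]
          exact ⟨by simp, by norm_num, by norm_num⟩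
        · rw [dist_diff z hz (by rw [sd_odd hk]; cases s <;> simp [sd]), lw_odd hk]
          simp only [lw]
          exact ⟨by simp, by norm_num, by norm_num⟩
      · obtain ⟨rfl, rfl⟩ := h
        have := abs_le.1 (hz s i)
        by_cases hk : k.val % 2 = 0
        · rw [dist_same z hz (by simp) (by rw [sd_even hk]; rfl), lw_even hk]
          simp only [lw]
          exact ⟨by simp, by linarith [this.1], by linarith [this.2]⟩
        · rw [dist_diff z hz (by rw [sd_odd hk]; cases s <;> simp [sd]), lw_odd hk]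
          simp only [lw]
          exact ⟨by simp, by linarith [this.1], by linarith [this.2]⟩
      · obtain ⟨rfl, rfl, rfl⟩ := h
        have hne : k ≠ k + 2 := by revert k; decide
        have hne' : gl s i k ≠ gl s i (k + 2) := by simp [hne]
        by_cases hk : k.val % 2 = 0
        · have hk2 := par_a k hk
          rw [dist_same z hz hne' (by rw [sd_even hk, sd_even hk2]), lw_even hk, lw_even hk2]
          exact ⟨hne', by norm_num, by norm_num⟩
        · have hk2 := par_b k hk
          rw [dist_same z hz hne' (by rw [sd_odd hk, sd_odd hk2]), lw_odd hk, lw_odd hk2]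
          exact ⟨hne', by norm_num, by norm_num⟩
    exact key
  · intro u v h hadj
    have key : (model z hz).dist u v < 20 ∨ 22 < (model z hz).dist u v := by
      rcases u with s | ⟨s, i⟩ | ⟨s, i, k⟩ <;> rcases v with s' | ⟨s', j⟩ | ⟨s', j, l⟩
      · exact absurd h id
      · have h' : s = s' := h
        subst h'
        rw [dist_same z hz (u := anch s) (v := rl s j) (by simp) rfl]
        have := abs_le.1 (hz s j)
        simp only [lw]
        left
        linarith [this.2]
      · exact absurd h id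
      · exact absurd h id
      · obtain ⟨rfl, rfl, rfl⟩ := h
        rw [dist_diff z hz (by simp [sd])]
        simp only [lw, z0, z1]
        rcases lt_abs.1 (h2 i) with h | h
        · right; linarith
        · left; linarith
      · exact absurd h id
      · exact absurd h id
      · exact absurd h id
      · obtain ⟨rfl, rfl, rfl⟩ := h
        right
        by_cases hk : k.val % 2 = 0
        · have hk2 := par_c k hk
          rw [dist_diff z hz (by rw [sd_even hk, sd_odd hk2]; cases s <;> simp), lw_even hk,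
            lw_odd hk2]
          norm_num
        · have hk2 := par_d k hk
          rw [dist_diff z hz (by rw [sd_odd hk, sd_even hk2]; cases s <;> simp), lw_odd hk,
            lw_even hk2]
          norm_num
    obtain ⟨-, h3, h4⟩ := hadj
    change 20 ≤ _ at h3
    change _ ≤ 22 at h4
    rcases key with h | h <;> linarith
  · have hsub : ((Set.range (model z hz).leaf)ᶜ) ⊆ ({hb false, hb true} : Set (Dn N)) := by
      intro w hw
      rcases w with (_ | _) | u
      · exact Or.inl rfl
      · exact Or.inr rfl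
      · exact absurd ⟨u, rfl⟩ hw
    refine (Set.ncard_le_ncard hsub ((Set.finite_singleton _).insert _)).trans ?_
    exact (Set.ncard_pair (show (hb false : Dn N) ≠ hb true by simp)).le

end Pool.Agent.PCG.B3
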