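import Pool.Agent.Work.MP_9390ab_lc.Defs

/-!
# The four point condition in weighted trees
-/

set_option autoImplicit false

namespace Pool.Agent.PCG

open SimpleGraph

variable {W : Type} {T : SimpleGraph W}

/-- `x` and `y` are joined without the edge `e`. -/
def Rel (T : SimpleGraph W) (e : Sym2 W) (x y : W) : Prop := (T.deleteEdges {e}).Reachable x y

theorem Rel.refl (e : Sym2 W) (x : W) : Rel T e x x := Reachable.refl x

theorem Rel.symm {e : Sym2 W} {x y : W} (h : Rel T e x y) : Rel T e y x := Reachable.symm h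

theorem Rel.trans {e : Sym2 W} {x y z : W} (h : Rel T e x y) (h' : Rel T e y z) : Rel T e x z :=
  Reachable.trans h h'

theorem rel_of_adj {e : Sym2 W} {x y : W} (h : T.Adj x y) (he : s(x, y) ≠ e) : Rel T e x y := by
  refine Adj.reachable ?_
  rw [deleteEdges_adj]
  exact ⟨h, by simpa using he⟩

/-- Without the edge `s(x, y)` every vertex is joined to `x` or to `y`. -/
theorem rel_or (hT : T.Connected) (x y z : W) : Rel T s(x, y) z x ∨ Rel T s(x, y) z y := by
  obtain ⟨p⟩ := hT z x
  induction p with
  | nil => exact Or.inl (Rel.refl _ _)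
  | @cons a b c h p ih =>
    by_cases e : s(a, b) = s(c, y)
    · rw [Sym2.eq_iff] at e
      rcases e with ⟨rfl, -⟩ | ⟨rfl, -⟩
      · exact Or.inl (Rel.refl _ _)
      · exact Or.inr (Rel.refl _ _)
    · have h1 := rel_of_adj h e
      exact ih.imp h1.trans h1.trans

/-- There are at most two classes. -/
theorem rel_two (hT : T.Connected) {e : Sym2 W} {a b c : W} (h : ¬ Rel T e a b)
    (h' : ¬ Rel T e b c) : Rel T e a c := by
  induction e with
  | h x y =>
    rcases rel_or hT x y a with ha | ha <;> rcases rel_or hT x y b with hb | hb <;>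
      rcases rel_or hT x y c with hc | hc
    · exact absurd (ha.trans hb.symm) h
    · exact absurd (ha.trans hb.symm) h
    · exact ha.trans hc.symm
    · exact absurd (hb.trans hc.symm) h'
    · exact absurd (hb.trans hc.symm) h'
    · exact ha.trans hc.symm
    · exact absurd (ha.trans hb.symm) h
    · exact absurd (ha.trans hb.symm) h

/-- If `a` and `b` are joined without `e`, but not without `s(x, y)`, then `a` and `x` are joined
without `e`. -/
theorem rel_end {e : Sym2 W} {a b x y : W} (h : Rel T e a b) (h' : ¬ Rel T s(x, y) a b) :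
    Rel T e a x := by
  obtain ⟨p⟩ := h
  induction p with
  | nil => exact absurd (Rel.refl _ _) h'
  | @cons a b c hab p ih =>
    have h2 := hab
    rw [deleteEdges_adj] at h2
    have h1 : Rel T e a b := hab.reachable
    by_cases e' : s(a, b) = s(x, y)
    · rw [Sym2.eq_iff] at e'
      rcases e' with ⟨rfl, -⟩ | ⟨-, rfl⟩
      · exact Rel.refl _ _
      · exact h1
    · have h3 := rel_of_adj h2.1 e'
      exact h1.trans (ih fun h4 => h' (h3.trans h4))

/-- Splits of a tree are compatible. -/
theorem no_cross (hT : T.Connected) {e f : Sym2 W} {a b c d : W} (h1 : Rel T e a b)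
    (h2 : Rel T e c d) (h3 : ¬ Rel T e a c) (g1 : Rel T f a c) (g2 : Rel T f b d)
    (g3 : ¬ Rel T f a b) : False := by
  induction f with
  | h x y =>
    have g4 : ¬ Rel T s(x, y) c d := fun g => g3 ((g1.trans g).trans g2.symm)
    exact h3 ((rel_end h1 g3).trans (rel_end h2 g4).symm)

theorem mem_edges_iff (hT : T.IsTree) {a b : W} (p : T.Walk a b) (hp : p.IsPath) (e : Sym2 W) :
    e ∈ p.edges ↔ ¬ Rel T e a b := by
  classical
  constructor
  · intro he h
    obtain ⟨q⟩ := h
    have h1 : T.deleteEdges {e} ≤ T := deleteEdges_le _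
    have hq : ((q.toPath : (T.deleteEdges {e}).Walk a b).mapLe h1).IsPath :=
      (Walk.mapLe_isPath h1).2 q.toPath.2
    rw [← (hT.existsUnique_path a b).unique hq hp, Walk.edges_mapLe_eq_edges] at he
    have h2 := Walk.edges_subset_edgeSet _ he
    rw [edgeSet_deleteEdges] at h2
    exact h2.2 rfl
  · intro h
    exact Walk.mem_edges_of_not_reachable_deleteEdges p h

open Classical in
/-- The distance as a sum over all edges. -/
theorem treeDist_sum [Fintype (Sym2 W)] (hT : T.IsTree) (w : Sym2 W → ℝ) (a b : W) :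
    treeDist hT w a b = ∑ e : Sym2 W, if ¬ Rel T e a b then w e else 0 := by
  obtain ⟨p, hp, -⟩ := hT.existsUnique_path a b
  rw [treeDist_eq hT w p hp, ← Finset.sum_filter, ← List.sum_toFinset w hp.isTrail.edges_nodup]
  refine Finset.sum_congr ?_ fun _ _ => rfl
  ext e
  simp [mem_edges_iff hT p hp e]

theorem four_point_aux {R : W → W → Prop} (hs : ∀ x y, R x y → R y x)
    (ht : ∀ x y z, R x y → R y z → R x z) (h2 : ∀ x y z, ¬ R x y → ¬ R y z → R x z) {a b c d : W}
    (h : ¬ (R a c ∧ R b d ∧ ¬ R a b)) [Decidable (¬ R a b)] [Decidable (¬ R c d)]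
    [Decidable (¬ R a c)] [Decidable (¬ R b d)] {r : ℝ} (hr : 0 ≤ r) :
    (if ¬ R a b then r else 0) + (if ¬ R c d then r else 0) ≤
      (if ¬ R a c then r else 0) + (if ¬ R b d then r else 0) := by
  by_cases h1 : R a b <;> by_cases h3 : R c d <;> by_cases h4 : R a c <;> by_cases h5 : R b d <;>
    simp only [h1, h3, h4, h5, not_true_eq_false, not_false_eq_true, if_true, if_false] <;>
    first
      | linarith
      | (exfalso; exact h3 (ht _ _ _ (hs _ _ h4) (ht _ _ _ h1 h5)))
      | (exfalso; exact h1 (ht _ _ _ h4 (ht _ _ _ h3 (hs _ _ h5))))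
      | (exfalso; exact h ⟨h4, h5, h1⟩)
      | (exfalso; exact h5 (ht _ _ _ (hs _ _ h1) (ht _ _ _ h4 h3)))
      | (exfalso; exact h4 (ht _ _ _ h1 (ht _ _ _ h5 (hs _ _ h3))))
      | (exfalso; exact h3 (ht _ _ _ (hs _ _ h4) (h2 _ _ _ h1 h5)))
      | (exfalso; exact h3 (ht _ _ _ (h2 _ _ _ (fun g => h4 (hs _ _ g)) h1) h5))

/-- **The four point condition.** -/
theorem four_point [Finite W] (hT : T.IsTree) {w : Sym2 W → ℝ} (hw : ∀ e ∈ T.edgeSet, 0 < w e)
    (a b c d : W) : treeDist hT w a b + treeDist hT w c d ≤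
      max (treeDist hT w a c + treeDist hT w b d) (treeDist hT w a d + treeDist hT w b c) := by
  classical
  have : Fintype (Sym2 W) := Fintype.ofFinite _
  have hw' : ∀ e, (¬ Rel T e a b ∨ ¬ Rel T e c d) → 0 ≤ w e := by
    intro e he
    rcases he with he | he
    · obtain ⟨p, hp, -⟩ := hT.existsUnique_path a b
      exact (hw e (Walk.edges_subset_edgeSet _ ((mem_edges_iff hT p hp e).2 he))).le
    · obtain ⟨p, hp, -⟩ := hT.existsUnique_path c d
      exact (hw e (Walk.edges_subset_edgeSet _ ((mem_edges_iff hT p hp e).2 he))).le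
  simp only [treeDist_sum hT]
  rw [← Finset.sum_add_distrib, ← Finset.sum_add_distrib, ← Finset.sum_add_distrib]
  have key : ∀ (e : Sym2 W) (c' d' : W), ((c' = c ∧ d' = d) ∨ (c' = d ∧ d' = c)) →
      ¬ (Rel T e a c' ∧ Rel T e b d' ∧ ¬ Rel T e a b) →
      (if ¬ Rel T e a b then w e else 0) + (if ¬ Rel T e c' d' then w e else 0) ≤
      (if ¬ Rel T e a c' then w e else 0) + (if ¬ Rel T e b d' then w e else 0) := by
    intro e c' d' hcd h
    by_cases hr : 0 ≤ w e
    · exact four_point_aux (R := Rel T e) (fun _ _ h => h.symm) (fun _ _ _ h h' => h.trans h')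
        (fun _ _ _ h h' => rel_two hT.connected h h') h hr
    · have h1 : Rel T e a b := by
        by_contra h1; exact hr (hw' e (Or.inl h1))
      have h2 : Rel T e c d := by
        by_contra h2; exact hr (hw' e (Or.inr h2))
      have h3 : Rel T e c' d' := by
        rcases hcd with ⟨rfl, rfl⟩ | ⟨rfl, rfl⟩
        · exact h2
        · exact h2.symm
      have h4 : Rel T e a c' ↔ Rel T e b d' :=
        ⟨fun h => (h1.symm.trans h).trans h3, fun h => (h1.trans h).trans h3.symm⟩
      have h5 : e ∉ T.edgeSet := fun he => hr (hw e he).le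
      have h6 : Rel T e a c' := by
        obtain ⟨p⟩ := hT.connected a c'
        by_contra h
        exact h5 (Walk.edges_subset_edgeSet _ (Walk.mem_edges_of_not_reachable_deleteEdges p h))
      simp [h1, h3, h6, h4.1 h6]
  by_cases h : ∃ e, Rel T e a c ∧ Rel T e b d ∧ ¬ Rel T e a b
  · refine le_trans ?_ (le_max_right _ _)
    refine Finset.sum_le_sum fun e _ => ?_
    have h1 := key e d c (Or.inr ⟨rfl, rfl⟩) ?_
    · have h2 : (if ¬ Rel T e d c then w e else 0) = (if ¬ Rel T e c d then w e else 0) := by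
        congr 1
        exact propext ⟨fun h h' => h h'.symm, fun h h' => h h'.symm⟩
      rw [h2] at h1
      exact h1
    · rintro ⟨h1, h2, h3⟩
      obtain ⟨f, g1, g2, g3⟩ := h
      refine no_cross hT.connected (e := f) (f := e) (a := a) (b := c) (c := d) (d := b) g1
        g2.symm (fun g => ?_) h1 h2.symm ?_
      · exact g3 (g.trans g2.symm)
      · intro g
        exact h3 (g.trans h2.symm)
  · refine le_trans ?_ (le_max_left _ _)
    refine Finset.sum_le_sum fun e _ => ?_
    exact key e c d (Or.inl ⟨rfl, rfl⟩) fun h' => h ⟨e, h'⟩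

/-- The four point condition for leaves. -/
theorem WTree.four_point {V : Type} (M : WTree V) (a b c d : V) :
    M.dist a b + M.dist c d ≤ max (M.dist a c + M.dist b d) (M.dist a d + M.dist b c) := by
  have := M.finite
  exact PCG.four_point M.isTree M.wt_pos _ _ _ _

end Pool.Agent.PCG
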