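import Mathlib

/-!
# Weighted trees and pairwise compatibility graphs
-/

set_option autoImplicit false

namespace Pool.Agent.PCG

open SimpleGraph

/-- The distance of two vertices of a tree with edge weights `w`: the sum of the weights of the
edges of the unique path between them. -/
noncomputable def treeDist {W : Type} {T : SimpleGraph W} (hT : T.IsTree) (w : Sym2 W → ℝ)
    (x y : W) : ℝ :=
  ((hT.existsUnique_path x y).choose.edges.map w).sum

theorem treeDist_eq {W : Type} {T : SimpleGraph W} (hT : T.IsTree) (w : Sym2 W → ℝ)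
    {x y : W} (p : T.Walk x y) (hp : p.IsPath) : treeDist hT w x y = (p.edges.map w).sum := by
  unfold treeDist
  rw [(hT.existsUnique_path x y).unique (hT.existsUnique_path x y).choose_spec.1 hp]

theorem treeDist_comm {W : Type} {T : SimpleGraph W} (hT : T.IsTree) (w : Sym2 W → ℝ)
    (x y : W) : treeDist hT w x y = treeDist hT w y x := by
  obtain ⟨p, hp, -⟩ := hT.existsUnique_path x y
  rw [treeDist_eq hT w p hp, treeDist_eq hT w p.reverse hp.reverse, Walk.edges_reverse,
    List.map_reverse, List.sum_reverse]

/-- A finite tree `T` with positive real edge weights `wt` whose leaves are the points `leaf v`,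
`v : V`, together with two numbers `0 ≤ dmin ≤ dmax`. -/
structure WTree (V : Type) where
  W : Type
  finite : Finite W
  T : SimpleGraph W
  isTree : T.IsTree
  wt : Sym2 W → ℝ
  wt_pos : ∀ e ∈ T.edgeSet, 0 < wt e
  leaf : V → W
  leaf_injective : Function.Injective leaf
  mem_range_leaf : ∀ x, x ∈ Set.range leaf ↔ (T.neighborSet x).ncard ≤ 1
  dmin : ℝ
  dmax : ℝ
  dmin_nonneg : 0 ≤ dmin
  dmin_le_dmax : dmin ≤ dmax

/-- The distance of two leaves. -/
noncomputable def WTree.dist {V : Type} (M : WTree V) (u v : V) : ℝ :=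
  treeDist M.isTree M.wt (M.leaf u) (M.leaf v)

theorem WTree.dist_comm {V : Type} (M : WTree V) (u v : V) : M.dist u v = M.dist v u :=
  treeDist_comm _ _ _ _

/-- The graph `PCG(T, dmin, dmax)` on the set of leaves. -/
def WTree.graph {V : Type} (M : WTree V) : SimpleGraph V where
  Adj u v := u ≠ v ∧ M.dmin ≤ M.dist u v ∧ M.dist u v ≤ M.dmax
  symm := ⟨fun u v h => ⟨h.1.symm, by rw [M.dist_comm]; exact h.2.1,
    by rw [M.dist_comm]; exact h.2.2⟩⟩
  loopless := ⟨fun u h => h.1 rfl⟩

/-- An input of generalized PCG recognition: a graph `G` and a set `S` of pairs which are not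
edges of `G`. -/
structure GInput where
  n : ℕ
  G : SimpleGraph (Fin n)
  S : SimpleGraph (Fin n)
  disj : ∀ u v, S.Adj u v → ¬ G.Adj u v

/-- The question of generalized PCG recognition: is there a pairwise compatibility graph which
contains all edges of `G` and no pair of `S`? -/
def GInput.Yes (I : GInput) : Prop :=
  ∃ M : WTree (Fin I.n), (∀ u v, I.G.Adj u v → M.graph.Adj u v) ∧
    ∀ u v, I.S.Adj u v → ¬ M.graph.Adj u v

end Pool.Agent.PCG
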