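import Pool.Agent.Work.MP_9390ab_lc.Poly

/-!
# Generalized PCG recognition is NP-hard

Given a graph `G` and a set `S` of non-edges of `G`, deciding whether some pairwise compatibility
graph contains all edges of `G` and no pair of `S` is NP-hard.

Idea. (1) If `c, d` is a pair of `S`, and `p₀, p₁, p₂, p₃` are joined by edges to `c` and `d`, with
edges `p₀p₂`, `p₁p₃` and the other four pairs of `p`s in `S`, then the distance of `c` and `d` is
smaller than `dmin`. (2) With such gadgets one forces two columns of leaves around two anchors, and
then the distance of a leaf of the first column and a leaf of the second one is, by the four point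
condition, a sum `x + y`. (3) A cyclic sequence of rungs `(aᵢ, bᵢ)` in `S` with edges `(aᵢ, bᵢ₊₁)` is
a not-all-equal constraint on the kinds (`< dmin` or `> dmax`) of the rungs.
-/

set_option autoImplicit false

namespace Pool.Agent.Work.MP_9390ab_lc.GeneralizedNPHard

open Pool.Agent.PCG

/-- Every language in NP is polynomial-time many-one reducible to generalized PCG recognition. -/
theorem result : ∀ L ∈ N68a2faeb.NP, ∃ f : List Bool → List Bool,
    N68a2faeb.IsPolyTime f ∧ ∀ x, L x = true ↔ GLang (f x) :=
  fun _ h => hard h

end Pool.Agent.Work.MP_9390ab_lc.GeneralizedNPHard
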