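import Pool.Agent.Work.MP_9390ab_lc.Defs
import Pool.Prelude.Def_H_3587d628

/-!
# Generalized PCG recognition as a set of bit strings
-/

set_option autoImplicit false

namespace Pool.Agent.PCG

open N487b59b3

open Classical in
/-- The adjacency matrix of a graph. -/
noncomputable def adjMatrix {n : ℕ} (G : SimpleGraph (Fin n)) : List (List Bool) :=
  List.ofFn fun i => List.ofFn fun j => decide (G.Adj i j)

/-- The encoding of inputs by bit strings: the adjacency matrices of `G` and `S`. -/
noncomputable def GInput.encode (I : GInput) : List Bool :=
  bitEncode (adjMatrix I.G, adjMatrix I.S)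

/-- Generalized PCG recognition as a set of bit strings: the codes of the yes-inputs. -/
def GLang (x : List Bool) : Prop := ∃ I : GInput, I.encode = x ∧ I.Yes

end Pool.Agent.PCG
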