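import Mathlib

/-!
# From formulas to real constraints

A formula in conjunctive normal form is a list of clauses, a clause is a list of pairs
`(b, v)`, meaning that the variable `v` has the value `b`. `Js` is the list of rungs and `lk` the
link relation of the formula.
-/

set_option autoImplicit false

namespace Pool.Agent.PCG

/-- Formulas. -/
abbrev Cnf := List (List (Bool × ℕ))

/-- Rungs: `(0, v, 0)` and `(1, v, 0)` belong to the literals of the variable `v` with signs
`false` and `true`, and `(2, c, k)` to the literal in place `k` of the clause `c`. -/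
abbrev J := ℕ × ℕ × ℕ

/-- Add two copies of a false literal to every clause. -/
def pad (φ : Cnf) : Cnf :=
  φ.map (fun c => (true, 0) :: (true, 0) :: c.map (fun l => (l.1, l.2 + 1)))

/-- Clause `c`. -/
def clz (ψ : Cnf) (c : ℕ) : List (Bool × ℕ) := ψ.getD c []

/-- The literal in place `k` of the clause `c`. -/
def ltr (ψ : Cnf) (c k : ℕ) : Bool × ℕ := (clz ψ c).getD k (true, 0)

/-- A bound for the variables. -/
def bnd (ψ : Cnf) : ℕ := (ψ.flatten.map (fun l => l.2)).sum + 1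

/-- The rungs. -/
def Js (ψ : Cnf) : List J :=
  (List.range (bnd ψ)).flatMap (fun v => [(0, v, 0), (1, v, 0)]) ++
    (List.range ψ.length).flatMap (fun c =>
      (List.range (clz ψ c).length).map (fun k => (2, c, k)))

/-- Code of a sign. -/
def sg (b : Bool) : ℕ := if b = true then 1 else 0

/-- The link relation. -/
def lk (ψ : Cnf) (i j : J) : Bool :=
  decide ((i.1 < 2 ∧ j.1 < 2 ∧ i.2.1 = j.2.1 ∧ i.1 ≠ j.1) ∨
    (i.1 = 2 ∧ j.1 < 2 ∧ j.2.1 = (ltr ψ i.2.1 i.2.2).2 ∧ j.1 ≠ sg (ltr ψ i.2.1 i.2.2).1) ∨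
    (j.1 = 2 ∧ i.1 < 2 ∧ i.2.1 = (ltr ψ j.2.1 j.2.2).2 ∧ i.1 ≠ sg (ltr ψ j.2.1 j.2.2).1) ∨
    (i.1 = 2 ∧ j.1 = 2 ∧ i.2.1 = j.2.1 ∧ j.2.2 = (i.2.2 + 1) % (clz ψ i.2.1).length))

/-- Satisfiability. -/
def Sat (φ : Cnf) : Prop := ∃ v : ℕ → Bool, ∀ c ∈ φ, ∃ l ∈ c, v l.2 = l.1

theorem mem_Js {ψ : Cnf} {j : J} : j ∈ Js ψ ↔
    (j.1 < 2 ∧ j.2.1 < bnd ψ ∧ j.2.2 = 0) ∨
      (j.1 = 2 ∧ j.2.1 < ψ.length ∧ j.2.2 < (clz ψ j.2.1).length) := by
  obtain ⟨a, b, c⟩ := j
  simp only [Js, List.mem_append, List.mem_flatMap, List.mem_range, List.mem_cons,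
    List.not_mem_nil, or_false, List.mem_map, Prod.mk.injEq]
  constructor
  · rintro (⟨v, hv, ⟨rfl, rfl, rfl⟩ | ⟨rfl, rfl, rfl⟩⟩ | ⟨c', hc', k, hk, rfl, rfl, rfl⟩)
    · exact Or.inl ⟨by omega, hv, rfl⟩
    · exact Or.inl ⟨by omega, hv, rfl⟩
    · exact Or.inr ⟨rfl, hc', hk⟩
  · rintro (⟨h1, h2, rfl⟩ | ⟨rfl, h2, h3⟩)
    · refine Or.inl ⟨b, h2, ?_⟩
      interval_cases a
      · exact Or.inl ⟨rfl, rfl, rfl⟩
      · exact Or.inr ⟨rfl, rfl, rfl⟩
    · exact Or.inr ⟨b, h2, c, h3, rfl, rfl, rfl⟩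

theorem lt_bnd {ψ : Cnf} {c : List (Bool × ℕ)} {l : Bool × ℕ} (hc : c ∈ ψ) (hl : l ∈ c) :
    l.2 < bnd ψ := by
  have h1 : l.2 ∈ ψ.flatten.map (fun l => l.2) :=
    List.mem_map.2 ⟨l, List.mem_flatten.2 ⟨c, hc, hl⟩, rfl⟩
  have := List.single_le_sum (by simp) _ h1
  unfold bnd
  omega

theorem clz_mem {ψ : Cnf} {c : ℕ} (hc : c < ψ.length) : clz ψ c ∈ ψ := by
  unfold clz
  rw [List.getD_eq_getElem _ _ hc]
  exact List.getElem_mem hc

theorem ltr_mem {ψ : Cnf} {c k : ℕ} (hk : k < (clz ψ c).length) : ltr ψ c k ∈ clz ψ c := by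
  unfold ltr
  rw [List.getD_eq_getElem _ _ hk]
  exact List.getElem_mem hk

theorem ltr_lt {ψ : Cnf} {c k : ℕ} (hc : c < ψ.length) (hk : k < (clz ψ c).length) :
    (ltr ψ c k).2 < bnd ψ := lt_bnd (clz_mem hc) (ltr_mem hk)

theorem clz_pad {φ : Cnf} {c : ℕ} (hc : c < φ.length) :
    clz (pad φ) c = (true, 0) :: (true, 0) :: (clz φ c).map (fun l => (l.1, l.2 + 1)) := by
  unfold clz pad
  rw [List.getD_eq_getElem _ _ (by simpa using hc), List.getElem_map,
    List.getD_eq_getElem _ _ hc]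

/-- The real constraints. -/
def Con (ψ : Cnf) (r : ℝ) (X Y : J → ℝ) : Prop :=
  (∀ i ∈ Js ψ, ∀ j ∈ Js ψ, lk ψ i j = true → |X i + Y j| ≤ r) ∧ ∀ j ∈ Js ψ, r < |X j + Y j|

section sound

variable {ψ : Cnf} {r : ℝ} {X Y : J → ℝ}

theorem Con.dichotomy (h : Con ψ r X Y) {j : J} (hj : j ∈ Js ψ) (hn : ¬ r < X j + Y j) :
    X j + Y j < -r := by
  rcases lt_abs.1 (h.2 j hj) with h1 | h1
  · exact absurd h1 hn
  · linarith

theorem Con.xor (h : Con ψ r X Y) {i j : J} (hi : i ∈ Js ψ) (hj : j ∈ Js ψ)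
    (h1 : lk ψ i j = true) (h2 : lk ψ j i = true) :
    (r < X i + Y i) ↔ ¬ (r < X j + Y j) := by
  have e1 := abs_le.1 (h.1 i hi j hj h1)
  have e2 := abs_le.1 (h.1 j hj i hi h2)
  constructor
  · intro g1 g2
    linarith
  · intro g
    by_contra g'
    have := h.dichotomy hi g'
    have := h.dichotomy hj g
    linarith

theorem sum_rot (n : ℕ) (f : ℕ → ℝ) :
    ∑ k ∈ Finset.range n, f ((k + 1) % n) = ∑ k ∈ Finset.range n, f k := by
  cases n with
  | zero => simp
  | succ m =>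
    rw [Finset.sum_range_succ, Finset.sum_range_succ' f, Nat.mod_self]
    congr 1
    refine Finset.sum_congr rfl fun k hk => ?_
    rw [Finset.mem_range] at hk
    rw [Nat.mod_eq_of_lt (by omega)]

theorem Con.nae (h : Con ψ r X Y) {c : ℕ} (hc : c < ψ.length) (hn : 0 < (clz ψ c).length)
    (P : Prop) : ¬ ∀ k < (clz ψ c).length, ((r < X (2, c, k) + Y (2, c, k)) ↔ P) := by
  intro hall
  set n := (clz ψ c).length with hn'
  have hmem : ∀ k < n, ((2, c, k) : J) ∈ Js ψ := fun k hk => mem_Js.2 (Or.inr ⟨rfl, hc, hk⟩)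
  have hlk : ∀ k < n, |X (2, c, k) + Y (2, c, (k + 1) % n)| ≤ r := fun k hk =>
    h.1 _ (hmem k hk) _ (hmem _ (Nat.mod_lt _ hn)) (by simp [lk, ← hn'])
  have e1 : ∑ k ∈ Finset.range n, (X (2, c, k) + Y (2, c, (k + 1) % n)) =
      ∑ k ∈ Finset.range n, (X (2, c, k) + Y (2, c, k)) := by
    rw [Finset.sum_add_distrib, Finset.sum_add_distrib, sum_rot n (fun k => Y (2, c, k))]
  have hne : (Finset.range n).Nonempty := ⟨0, by simpa using hn⟩
  by_cases hP : P
  · have h1 : ∑ k ∈ Finset.range n, (X (2, c, k) + Y (2, c, (k + 1) % n)) ≤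
        ∑ k ∈ Finset.range n, r :=
      Finset.sum_le_sum fun k hk => (abs_le.1 (hlk k (Finset.mem_range.1 hk))).2
    have h2 : ∑ k ∈ Finset.range n, r < ∑ k ∈ Finset.range n, (X (2, c, k) + Y (2, c, k)) :=
      Finset.sum_lt_sum_of_nonempty hne fun k hk => (hall k (Finset.mem_range.1 hk)).2 hP
    linarith
  · have h1 : ∑ k ∈ Finset.range n, -r ≤
        ∑ k ∈ Finset.range n, (X (2, c, k) + Y (2, c, (k + 1) % n)) :=
      Finset.sum_le_sum fun k hk => (abs_le.1 (hlk k (Finset.mem_range.1 hk))).1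
    have h2 : ∑ k ∈ Finset.range n, (X (2, c, k) + Y (2, c, k)) < ∑ k ∈ Finset.range n, -r :=
      Finset.sum_lt_sum_of_nonempty hne fun k hk =>
        h.dichotomy (hmem k (Finset.mem_range.1 hk)) fun g =>
          hP ((hall k (Finset.mem_range.1 hk)).1 g)
    linarith

theorem Con.hub (h : Con ψ r X Y) {v : ℕ} (hv : v < bnd ψ) :
    (r < X (1, v, 0) + Y (1, v, 0)) ↔ ¬ (r < X (0, v, 0) + Y (0, v, 0)) :=
  h.xor (mem_Js.2 (Or.inl ⟨by norm_num, hv, rfl⟩)) (mem_Js.2 (Or.inl ⟨by norm_num, hv, rfl⟩))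
    (by simp [lk]) (by simp [lk])

theorem Con.occ (h : Con ψ r X Y) {c k : ℕ} (hc : c < ψ.length) (hk : k < (clz ψ c).length) :
    (r < X (2, c, k) + Y (2, c, k)) ↔
      (r < X (sg (ltr ψ c k).1, (ltr ψ c k).2, 0) + Y (sg (ltr ψ c k).1, (ltr ψ c k).2, 0)) := by
  have hv := ltr_lt hc hk
  have h1 := h.hub hv
  generalize hl : ltr ψ c k = l at *
  obtain ⟨b, v⟩ := l
  have hocc : ((2, c, k) : J) ∈ Js ψ := mem_Js.2 (Or.inr ⟨rfl, hc, hk⟩)
  cases b with
  | true =>
    have h2 := h.xor (i := (2, c, k)) (j := (0, v, 0)) hocc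
      (mem_Js.2 (Or.inl ⟨by norm_num, hv, rfl⟩)) (by simp [lk, hl, sg]) (by simp [lk, hl, sg])
    show _ ↔ (r < X (1, v, 0) + Y (1, v, 0))
    tauto
  | false =>
    have h2 := h.xor (i := (2, c, k)) (j := (1, v, 0)) hocc
      (mem_Js.2 (Or.inl ⟨by norm_num, hv, rfl⟩)) (by simp [lk, hl, sg]) (by simp [lk, hl, sg])
    show _ ↔ (r < X (0, v, 0) + Y (0, v, 0))
    tauto

end sound

/-- The real constraints imply satisfiability. -/
theorem sat_of_con {φ : Cnf} {r : ℝ} {X Y : J → ℝ} (h : Con (pad φ) r X Y) : Sat φ := by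
  classical
  refine ⟨fun v => decide (¬ ((r < X (1, v + 1, 0) + Y (1, v + 1, 0)) ↔
    (r < X (1, 0, 0) + Y (1, 0, 0)))), ?_⟩
  intro c hc
  obtain ⟨i, hi, rfl⟩ := List.mem_iff_getElem.1 hc
  have hi' : i < (pad φ).length := by simpa [pad] using hi
  have e : clz φ i = φ[i] := by unfold clz; rw [List.getD_eq_getElem _ _ hi]
  have e2 := clz_pad hi
  have hlen : (clz (pad φ) i).length = (clz φ i).length + 2 := by rw [e2]; simp
  obtain ⟨k, hk, h2⟩ : ∃ k, k < (clz (pad φ) i).length ∧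
      ¬ ((r < X (2, i, k) + Y (2, i, k)) ↔ (r < X (1, 0, 0) + Y (1, 0, 0))) := by
    by_contra hcon
    exact h.nae hi' (by omega) (r < X (1, 0, 0) + Y (1, 0, 0))
      fun k hk => by_contra fun g => hcon ⟨k, hk, g⟩
  have h3 := h.occ hi' hk
  have h4 : ltr (pad φ) i 0 = (true, 0) := by unfold ltr; rw [e2]; rfl
  have h5 : ltr (pad φ) i 1 = (true, 0) := by unfold ltr; rw [e2]; rfl
  have hk2 : 2 ≤ k := by
    by_contra hk2
    have hk3 : k = 0 ∨ k = 1 := by omega
    rcases hk3 with rfl | rfl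
    · rw [h4] at h3
      simp only [sg, if_true] at h3
      tauto
    · rw [h5] at h3
      simp only [sg, if_true] at h3
      tauto
  obtain ⟨m, rfl⟩ := Nat.exists_eq_add_of_le' hk2
  have hm : m < (clz φ i).length := by omega
  have h6 : ltr (pad φ) i (m + 2) = (((clz φ i)[m]).1, ((clz φ i)[m]).2 + 1) := by
    unfold ltr
    rw [e2]
    show ((clz φ i).map _).getD m _ = _
    rw [List.getD_eq_getElem _ _ (by simpa using hm), List.getElem_map]
  have hv := ltr_lt hi' hk
  rw [h6] at h3 hv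
  have h7 := h.hub hv
  refine ⟨(clz φ i)[m], by rw [← e]; exact List.getElem_mem hm, ?_⟩
  generalize (clz φ i)[m] = l at *
  obtain ⟨b, v⟩ := l
  dsimp only at h3 h7 ⊢
  cases b with
  | true =>
    simp only [sg, if_true] at h3
    rw [decide_eq_true_iff]
    tauto
  | false =>
    simp only [sg, Bool.false_eq_true, if_false] at h3
    rw [decide_eq_false_iff_not]
    tauto

section complete

/-- Values of the variables of the padded formula. -/
def chi (v : ℕ → Bool) : ℕ → Bool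
  | 0 => false
  | n + 1 => v n

/-- The colour of a rung. -/
def col (ψ : Cnf) (χ : ℕ → Bool) (j : J) : Bool :=
  if j.1 = 2 then χ (ltr ψ j.2.1 j.2.2).2 == (ltr ψ j.2.1 j.2.2).1
  else χ j.2.1 == decide (j.1 = 1)

/-- A place where the colour changes. -/
theorem exists_change {n : ℕ} {f : ℕ → Bool} {k1 : ℕ} (hk1 : k1 < n)
    (h : f k1 ≠ f 0) : ∃ k0 < n, f k0 ≠ f ((k0 + 1) % n) := by
  by_contra hc
  push Not at hc
  have key : ∀ k, k < n → f k = f 0 := by
    intro k
    induction k with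
    | zero => intro _; rfl
    | succ k ih =>
      intro hk
      have := hc k (by omega)
      rw [Nat.mod_eq_of_lt hk] at this
      rw [← this]
      exact ih (by omega)
  exact h (key k1 hk1)

theorem rot_succ {n k k0 : ℕ} (hk : k < n) (hk0 : k0 < n) (hne : k ≠ k0) :
    ((k + 1) % n + (n - k0 - 1)) % n = (k + (n - k0 - 1)) % n + 1 := by
  rw [Nat.mod_add_mod]
  have h1 : (k + (n - k0 - 1)) % n + 1 < n := by
    by_cases h : k < k0
    · rw [Nat.mod_eq_of_lt (by omega)]; omega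
    · have e : k + (n - k0 - 1) = (k - k0 - 1) + n := by omega
      rw [e, Nat.add_mod_right, Nat.mod_eq_of_lt (by omega)]
      omega
  have h2 : (k + 1 + (n - k0 - 1)) % n = ((k + (n - k0 - 1)) % n + 1) % n := by
    rw [Nat.mod_add_mod]
    congr 1
    omega
  rw [h2, Nat.mod_eq_of_lt h1]

variable (ψ : Cnf) (χ : ℕ → Bool) (κ : ℕ → ℕ)

/-- The position in the cyclic order of a clause. -/
def tt (j : J) : ℕ := (j.2.2 + ((clz ψ j.2.1).length - κ j.2.1 - 1)) % (clz ψ j.2.1).length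

/-- Absolute value of `X`. -/
noncomputable def pp (j : J) : ℝ :=
  if j.1 = 2 then 1 / 4 + (tt ψ κ j + 1) / (2 * (clz ψ j.2.1).length) else 3 / 4

/-- Absolute value of `Y`. -/
noncomputable def qq (j : J) : ℝ :=
  if j.1 = 2 then 3 / 4 - (tt ψ κ j) / (2 * (clz ψ j.2.1).length) else 3 / 4

/-- Sign of a colour. -/
def sn (b : Bool) : ℝ := if b = true then 1 else -1

variable {ψ χ κ}

theorem pq_bounds {j : J} (hj : j ∈ Js ψ) : 1 / 4 ≤ pp ψ κ j ∧ pp ψ κ j ≤ 3 / 4 ∧
    1 / 4 ≤ qq ψ κ j ∧ qq ψ κ j ≤ 3 / 4 ∧ 1 < pp ψ κ j + qq ψ κ j := by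
  rcases mem_Js.1 hj with ⟨h1, -⟩ | ⟨h1, h2, h3⟩
  · have h4 : j.1 ≠ 2 := by omega
    simp only [pp, qq, if_neg h4]
    norm_num
  · simp only [pp, qq, if_pos h1]
    have hn : 0 < (clz ψ j.2.1).length := by omega
    have ht : tt ψ κ j < (clz ψ j.2.1).length := Nat.mod_lt _ hn
    have ht' : (tt ψ κ j : ℝ) + 1 ≤ ((clz ψ j.2.1).length : ℝ) := by exact_mod_cast ht
    have hn' : (0 : ℝ) < ((clz ψ j.2.1).length : ℝ) := by exact_mod_cast hn
    have ht0 : (0 : ℝ) ≤ (tt ψ κ j : ℝ) := by positivity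
    generalize ((clz ψ j.2.1).length : ℝ) = n at *
    generalize (tt ψ κ j : ℝ) = t at *
    have e1 : (t + 1) / (2 * n) ≤ 1 / 2 := by
      rw [div_le_iff₀ (by linarith)]; linarith
    have e2 : 0 < (t + 1) / (2 * n) := by positivity
    have e3 : t / (2 * n) < (t + 1) / (2 * n) := by
      apply div_lt_div_of_pos_right <;> linarith
    have e4 : 0 ≤ t / (2 * n) := by positivity
    refine ⟨by linarith, by linarith, by linarith, by linarith, by linarith⟩

theorem con_of_sat_aux (hpad : ∀ c < ψ.length, 0 < (clz ψ c).length)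
    (hκ : ∀ c < ψ.length, κ c < (clz ψ c).length ∧
      col ψ χ (2, c, κ c) ≠ col ψ χ (2, c, (κ c + 1) % (clz ψ c).length)) :
    Con ψ 1 (fun j => sn (col ψ χ j) * pp ψ κ j) (fun j => sn (col ψ χ j) * qq ψ κ j) := by
  constructor
  · intro i hi j hj hl
    obtain ⟨i1, i2, -, -, -⟩ := pq_bounds (κ := κ) hi
    obtain ⟨-, -, j1, j2, -⟩ := pq_bounds (κ := κ) hj
    have key : col ψ χ i ≠ col ψ χ j ∨ pp ψ κ i + qq ψ κ j ≤ 1 := by
      have hl' := of_decide_eq_true hl
      obtain ⟨a, b, c⟩ := i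
      obtain ⟨a', b', c'⟩ := j
      dsimp only at hl'
      rcases hl' with ⟨h1, h2, h3, h4⟩ | ⟨h1, h2, h3, h4⟩ | ⟨h1, h2, h3, h4⟩ | ⟨h1, h2, h3, h4⟩
      · left
        subst h3
        have e1 : a ≠ 2 := by omega
        have e2 : a' ≠ 2 := by omega
        simp only [col, e1, e2, if_false]
        interval_cases a <;> interval_cases a' <;> simp_all
      · left
        subst h1 h3
        have e2 : a' ≠ 2 := by omega
        simp only [col, e2, if_false, if_true]
        generalize ltr ψ b c = l at *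
        obtain ⟨s, v⟩ := l
        interval_cases a' <;> cases s <;> simp_all [sg]
      · left
        subst h1 h3
        have e2 : a ≠ 2 := by omega
        simp only [col, e2, if_false, if_true]
        generalize ltr ψ b' c' = l at *
        obtain ⟨s, v⟩ := l
        interval_cases a <;> cases s <;> simp_all [sg]
      · subst h1 h2 h3 h4
        rcases mem_Js.1 hi with ⟨h1, -⟩ | ⟨-, h2, h3⟩
        · exact absurd h1 (by norm_num)
        · dsimp only at h2 h3
          obtain ⟨hk1, hk2⟩ := hκ b h2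
          by_cases hc : c = κ b
          · left
            subst hc
            exact hk2
          · right
            have e := rot_succ h3 hk1 hc
            have e' : tt ψ κ (2, b, (c + 1) % (clz ψ b).length) = tt ψ κ (2, b, c) + 1 := e
            simp only [pp, qq, if_true]
            rw [e']
            push_cast
            have : (2 * ((clz ψ b).length : ℝ)) ≠ 0 := by
              have := hpad b h2
              positivity
            apply le_of_eq
            ring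
    rcases key with h | h
    · cases h1 : col ψ χ i <;> cases h2 : col ψ χ j <;> simp_all [sn]
      · rw [abs_le]; constructor <;> linarith
      · rw [abs_le]; constructor <;> linarith
    · cases h1 : col ψ χ i <;> cases h2 : col ψ χ j <;> simp only [h1, h2, sn] <;>
        rw [abs_le] <;> constructor <;> norm_num <;> linarith
  · intro j hj
    obtain ⟨j1, j2, j3, j4, j5⟩ := pq_bounds (κ := κ) hj
    cases h1 : col ψ χ j <;> simp only [h1, sn]
    · rw [lt_abs]; right; norm_num; linarith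
    · rw [lt_abs]; left; norm_num; linarith

/-- Satisfiability gives a bounded solution of the real constraints. -/
theorem con_of_sat {φ : Cnf} (h : Sat φ) : ∃ X Y : J → ℝ, Con (pad φ) 1 X Y ∧
    (∀ j ∈ Js (pad φ), |X j| ≤ 3 / 4) ∧ ∀ j ∈ Js (pad φ), |Y j| ≤ 3 / 4 := by
  obtain ⟨v, hv⟩ := h
  have hlen : ∀ c < (pad φ).length, (clz (pad φ) c).length = (clz φ c).length + 2 := by
    intro c hc
    rw [clz_pad (by simpa [pad] using hc)]
    simp
  have hex : ∀ c, ∃ k, c < (pad φ).length → k < (clz (pad φ) c).length ∧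
      col (pad φ) (chi v) (2, c, k) ≠
        col (pad φ) (chi v) (2, c, (k + 1) % (clz (pad φ) c).length) := by
    intro c
    by_cases hc : c < (pad φ).length
    · have hc' : c < φ.length := by simpa [pad] using hc
      obtain ⟨l, hl, hl'⟩ := hv _ (clz_mem hc')
      obtain ⟨m, hm, rfl⟩ := List.mem_iff_getElem.1 hl
      have e2 := clz_pad hc'
      have h4 : ltr (pad φ) c 0 = (true, 0) := by unfold ltr; rw [e2]; rfl
      have h6 : ltr (pad φ) c (m + 2) = (((clz φ c)[m]).1, ((clz φ c)[m]).2 + 1) := by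
        unfold ltr
        rw [e2]
        show ((clz φ c).map _).getD m _ = _
        rw [List.getD_eq_getElem _ _ (by simpa using hm), List.getElem_map]
      obtain ⟨k0, h1, h2⟩ := exists_change (n := (clz (pad φ) c).length)
        (f := fun k => col (pad φ) (chi v) (2, c, k)) (k1 := m + 2)
        (by rw [hlen c hc]; omega) (by
          simp only [col, if_true, h4, h6, chi, hl']
          simp)
      exact ⟨k0, fun _ => ⟨h1, h2⟩⟩
    · exact ⟨0, fun h => absurd h hc⟩
  choose κ hκ using hex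
  refine ⟨_, _, con_of_sat_aux (κ := κ) (fun c hc => by rw [hlen c hc]; omega)
    (fun c hc => hκ c hc), ?_, ?_⟩
  · intro j hj
    obtain ⟨j1, j2, j3, j4, j5⟩ := pq_bounds (κ := κ) hj
    rw [abs_mul, abs_of_pos (a := pp (pad φ) κ j) (by linarith)]
    have : |sn (col (pad φ) (chi v) j)| = 1 := by unfold sn; split_ifs <;> simp
    rw [this]
    linarith
  · intro j hj
    obtain ⟨j1, j2, j3, j4, j5⟩ := pq_bounds (κ := κ) hj
    rw [abs_mul, abs_of_pos (a := qq (pad φ) κ j) (by linarith)]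
    have : |sn (col (pad φ) (chi v) j)| = 1 := by unfold sn; split_ifs <;> simp
    rw [this]
    linarith

end complete

end Pool.Agent.PCG
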