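import Pool.Agent.Work.MP_9390ab_lc.Build
import Pool.Agent.Work.MP_9390ab_lc.Lang
import Pool.Agent.Work.MP_9390ab_lc.Nae
import Pool.Agent.Work.PT.BitEnc
import Pool.Agent.Work.PT.CookLevin

/-!
# The reduction from the satisfiability problem, computed in polynomial time
-/

set_option autoImplicit false

namespace Pool.Agent.PCG

open Nm PT N487b59b3

/-! ### Relabelling -/

/-- Relabel the leaves. -/
def WTree.relabel {V V' : Type} (M : WTree V) (e : V' ≃ V) : WTree V' where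
  W := M.W
  finite := M.finite
  T := M.T
  isTree := M.isTree
  wt := M.wt
  wt_pos := M.wt_pos
  leaf := M.leaf ∘ e
  leaf_injective := M.leaf_injective.comp e.injective
  mem_range_leaf := fun x => by
    rw [← M.mem_range_leaf, EquivLike.range_comp]
  dmin := M.dmin
  dmax := M.dmax
  dmin_nonneg := M.dmin_nonneg
  dmin_le_dmax := M.dmin_le_dmax

theorem WTree.relabel_adj {V V' : Type} (M : WTree V) (e : V' ≃ V) (u v : V') :
    (M.relabel e).graph.Adj u v ↔ M.graph.Adj (e u) (e v) :=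
  and_congr (not_congr e.injective.eq_iff.symm) Iff.rfl

/-! ### Numbering of the leaves -/

/-- Codes of names. -/
abbrev T4 := ℕ × ℕ × ℕ × ℕ

variable {N : ℕ}

theorem toNat_eq {s s' : Bool} : s.toNat = s'.toNat ↔ s = s' := by
  cases s <;> cases s' <;> simp

theorem toNat_lt_two (s : Bool) : s.toNat < 2 := by cases s <;> simp

/-- The code of a name. -/
def tup : Nm N → T4
  | anch s => (0, s.toNat, 0, 0)
  | rl s i => (1, s.toNat, i, 0)
  | gl s i k => (2, s.toNat, i, k)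

theorem tup_inj : Function.Injective (tup : Nm N → T4) := by
  intro u v h
  rcases u with s | ⟨s, i⟩ | ⟨s, i, k⟩ <;> rcases v with s' | ⟨s', j⟩ | ⟨s', j, l⟩ <;>
    simp only [tup, Prod.mk.injEq, toNat_eq, OfNat.ofNat_ne_zero,
      OfNat.ofNat_ne_one, OfNat.zero_ne_ofNat, OfNat.one_ne_ofNat, zero_ne_one, one_ne_zero,
      false_and, true_and, and_true, Fin.val_inj] at h
  · rw [h]
  · rw [h.1, h.2]
  · rw [h.1, h.2.1, h.2.2]

/-- The number of a name. -/
def cd : Nm N → ℕ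
  | anch s => s.toNat
  | rl s i => 2 + 10 * i + s.toNat
  | gl s i k => 4 + 10 * i + 4 * s.toNat + k

/-- The code of the name with a given number. -/
def dec (u : ℕ) : T4 :=
  if u < 2 then (0, u, 0, 0)
  else if (u - 2) % 10 < 2 then (1, (u - 2) % 10, (u - 2) / 10, 0)
  else (2, ((u - 2) % 10 - 2) / 4, (u - 2) / 10, ((u - 2) % 10 - 2) % 4)

theorem cd_lt (u : Nm N) : cd u < 10 * N + 2 := by
  rcases u with (_ | _) | ⟨_ | _, i⟩ | ⟨_ | _, i, k⟩ <;> simp only [cd, Bool.toNat_false,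
    Bool.toNat_true] <;> omega

theorem dec_rl (s i : ℕ) (hs : s < 2) : dec (2 + 10 * i + s) = (1, s, i, 0) := by
  unfold dec
  rw [if_neg (by omega), if_pos (by omega)]
  refine Prod.ext rfl (Prod.ext ?_ (Prod.ext ?_ rfl)) <;> dsimp only <;> omega

theorem dec_gl (s i k : ℕ) (hs : s < 2) (hk : k < 4) :
    dec (4 + 10 * i + 4 * s + k) = (2, s, i, k) := by
  unfold dec
  rw [if_neg (by omega), if_neg (by interval_cases s <;> omega)]
  refine Prod.ext rfl (Prod.ext ?_ (Prod.ext ?_ ?_)) <;> dsimp only <;> interval_cases s <;>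
    omega

theorem dec_cd (u : Nm N) : dec (cd u) = tup u := by
  rcases u with s | ⟨s, i⟩ | ⟨s, i, k⟩
  · cases s <;> rfl
  · exact dec_rl _ _ (toNat_lt_two s)
  · exact dec_gl _ _ _ (toNat_lt_two s) k.2

theorem cd_surj {m : ℕ} (hm : m < 10 * N + 2) : ∃ u : Nm N, cd u = m := by
  by_cases h1 : m < 2
  · refine ⟨anch (decide (m = 1)), ?_⟩
    interval_cases m <;> rfl
  · by_cases h2 : (m - 2) % 10 < 2
    · refine ⟨rl (decide ((m - 2) % 10 = 1)) ⟨(m - 2) / 10, by omega⟩, ?_⟩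
      have h3 : (decide ((m - 2) % 10 = 1)).toNat = (m - 2) % 10 := by
        generalize (m - 2) % 10 = r at *
        interval_cases r <;> rfl
      simp only [cd, h3]
      omega
    · refine ⟨gl (decide (((m - 2) % 10 - 2) / 4 = 1)) ⟨(m - 2) / 10, by omega⟩
        ⟨((m - 2) % 10 - 2) % 4, by omega⟩, ?_⟩
      have h3 : (decide (((m - 2) % 10 - 2) / 4 = 1)).toNat = ((m - 2) % 10 - 2) / 4 := by
        have : ((m - 2) % 10 - 2) / 4 < 2 := by omega
        generalize ((m - 2) % 10 - 2) / 4 = r at *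
        interval_cases r <;> rfl
      simp only [cd, h3]
      omega

/-- The names are the numbers below `10 * N + 2`. -/
noncomputable def eqv (N : ℕ) : Nm N ≃ Fin (10 * N + 2) :=
  Equiv.ofBijective (fun u => ⟨cd u, cd_lt u⟩)
    ⟨fun u v h => tup_inj (by rw [← dec_cd, ← dec_cd, Fin.mk.inj h]),
      fun m => by
        obtain ⟨u, hu⟩ := cd_surj m.2
        exact ⟨u, Fin.ext hu⟩⟩

theorem dec_eqv (u : Nm N) : dec (eqv N u : ℕ) = tup u := dec_cd u

/-! ### The instance -/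

/-- The required edges in terms of codes. -/
def eT (ψ : Cnf) (a b : T4) : Bool :=
  decide ((a.1 = 0 ∧ b.1 = 0 ∧ a.2.1 = 0 ∧ b.2.1 = 1) ∨
    (a.1 = 0 ∧ b.1 = 1 ∧ b.2.1 ≠ a.2.1) ∨
    (a.1 = 1 ∧ b.1 = 1 ∧ a.2.1 = 0 ∧ b.2.1 = 1 ∧
      lk ψ ((Js ψ).getD a.2.2.1 (0, 0, 0)) ((Js ψ).getD b.2.2.1 (0, 0, 0)) = true) ∨
    (a.1 = 2 ∧ b.1 = 0 ∧ a.2.1 = b.2.1) ∨
    (a.1 = 2 ∧ b.1 = 1 ∧ a.2.1 = b.2.1 ∧ a.2.2.1 = b.2.2.1) ∨
    (a.1 = 2 ∧ b.1 = 2 ∧ a.2.1 = b.2.1 ∧ a.2.2.1 = b.2.2.1 ∧ b.2.2.2 = (a.2.2.2 + 2) % 4))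

/-- The forbidden edges in terms of codes. -/
def sT (a b : T4) : Bool :=
  decide ((a.1 = 1 ∧ b.1 = 1 ∧ a.2.1 = 0 ∧ b.2.1 = 1 ∧ a.2.2.1 = b.2.2.1) ∨
    (a.1 = 0 ∧ b.1 = 1 ∧ a.2.1 = b.2.1) ∨
    (a.1 = 2 ∧ b.1 = 2 ∧ a.2.1 = b.2.1 ∧ a.2.2.1 = b.2.2.1 ∧ b.2.2.2 = (a.2.2.2 + 1) % 4))

/-- The link relation on the numbers of the rungs. -/
def lkN (ψ : Cnf) (i j : Fin (Js ψ).length) : Prop := lk ψ (Js ψ)[i] (Js ψ)[j] = true

theorem eT_iff (ψ : Cnf) (u v : Nm (Js ψ).length) :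
    eT ψ (tup u) (tup v) = true ↔ EAdj (lkN ψ) u v := by
  unfold eT
  rw [decide_eq_true_iff]
  rcases u with s | ⟨s, i⟩ | ⟨s, i, k⟩ <;> rcases v with s' | ⟨s', j⟩ | ⟨s', j, l⟩ <;>
    simp [tup, EAdj, lkN, toNat_eq, Fin.ext_iff, Fin.val_add]

theorem sT_iff (u v : Nm N) : sT (tup u) (tup v) = true ↔ SAdj u v := by
  unfold sT
  rw [decide_eq_true_iff]
  rcases u with s | ⟨s, i⟩ | ⟨s, i, k⟩ <;> rcases v with s' | ⟨s', j⟩ | ⟨s', j, l⟩ <;>
    simp [tup, SAdj, toNat_eq, Fin.ext_iff, Fin.val_add]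

/-- Symmetric versions on numbers. -/
def eB (ψ : Cnf) (a b : ℕ) : Bool := eT ψ (dec a) (dec b) || eT ψ (dec b) (dec a)
def sB (a b : ℕ) : Bool := sT (dec a) (dec b) || sT (dec b) (dec a)

theorem eB_iff (ψ : Cnf) (u v : Nm (Js ψ).length) :
    eB ψ (eqv _ u : ℕ) (eqv _ v : ℕ) = true ↔ EAdj (lkN ψ) u v ∨ EAdj (lkN ψ) v u := by
  unfold eB
  rw [Bool.or_eq_true, dec_eqv, dec_eqv, eT_iff, eT_iff]

theorem sB_iff (u v : Nm N) :
    sB (eqv _ u : ℕ) (eqv _ v : ℕ) = true ↔ SAdj u v ∨ SAdj v u := by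
  unfold sB
  rw [Bool.or_eq_true, dec_eqv, dec_eqv, sT_iff, sT_iff]

theorem EAdj.irrefl {link : Fin N → Fin N → Prop} {u : Nm N} : ¬ EAdj link u u := by
  intro h
  rcases u with s | ⟨s, i⟩ | ⟨s, i, k⟩
  · obtain ⟨h1, h2⟩ := h
    simp [h1] at h2
  · obtain ⟨h1, h2, -⟩ := h
    simp [h1] at h2
  · obtain ⟨-, -, h⟩ := h
    revert h
    revert k
    decide

/-- Every clause has length at least two. -/
def Long (ψ : Cnf) : Prop := ∀ c < ψ.length, 2 ≤ (clz ψ c).length

theorem long_pad (φ : Cnf) : Long (pad φ) := by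
  intro c hc
  rw [clz_pad (by simpa [pad] using hc)]
  simp

theorem lk_irrefl {ψ : Cnf} (hψ : Long ψ) {j : J} (hj : j ∈ Js ψ) : lk ψ j j = false := by
  rw [lk, decide_eq_false_iff_not]
  rintro (⟨-, -, -, h⟩ | ⟨h1, h2, -⟩ | ⟨h1, h2, -⟩ | ⟨h1, -, -, h⟩)
  · exact h rfl
  · omega
  · omega
  · rcases mem_Js.1 hj with ⟨h2, -⟩ | ⟨-, h2, h3⟩
    · omega
    · have h4 := hψ _ h2
      generalize (clz ψ j.2.1).length = n at *
      generalize j.2.2 = k at *
      by_cases h5 : k + 1 < n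
      · rw [Nat.mod_eq_of_lt h5] at h; omega
      · have : k + 1 = n := by omega
        rw [this, Nat.mod_self] at h
        omega

theorem E_S {ψ : Cnf} (hψ : Long ψ) {u v : Nm (Js ψ).length} (h : SAdj u v) :
    ¬ (EAdj (lkN ψ) u v ∨ EAdj (lkN ψ) v u) := by
  rcases u with s | ⟨s, i⟩ | ⟨s, i, k⟩ <;> rcases v with s' | ⟨s', j⟩ | ⟨s', j, l⟩
  · exact absurd h id
  · have h' : s = s' := h
    subst h'
    rintro (h | h)
    · exact h rfl
    · exact h
  · exact absurd h id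
  · exact absurd h id
  · obtain ⟨rfl, rfl, rfl⟩ := h
    rintro (⟨-, -, h⟩ | ⟨h, -⟩)
    · have := lk_irrefl hψ (List.getElem_mem i.2)
      unfold lkN at h
      simp only [Fin.getElem_fin] at h
      rw [this] at h
      exact absurd h (by simp)
    · simp at h
  · exact absurd h id
  · exact absurd h id
  · exact absurd h id
  · obtain ⟨rfl, rfl, rfl⟩ := h
    rintro (⟨-, -, h⟩ | ⟨-, -, h⟩) <;> revert h <;> revert k <;> decide

/-- The instance of a formula. -/
noncomputable def inst (φ : Cnf) : GInput where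
  n := 10 * (Js (pad φ)).length + 2
  G :=
    { Adj := fun a b => eB (pad φ) a b = true
      symm := ⟨fun a b h => by unfold eB at h ⊢; rwa [Bool.or_comm]⟩
      loopless := ⟨fun a h => by
        obtain ⟨u, rfl⟩ := (eqv _).surjective a
        rw [eB_iff] at h
        exact h.elim EAdj.irrefl EAdj.irrefl⟩ }
  S :=
    { Adj := fun a b => sB a b = true
      symm := ⟨fun a b h => by unfold sB at h ⊢; rwa [Bool.or_comm]⟩
      loopless := ⟨fun a h => by
        obtain ⟨u, rfl⟩ := (eqv _).surjective a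
        rw [sB_iff] at h
        exact h.elim (fun h => h.ne rfl) (fun h => h.ne rfl)⟩ }
  disj := fun a b h h' => by
    obtain ⟨u, rfl⟩ := (eqv _).surjective a
    obtain ⟨v, rfl⟩ := (eqv _).surjective b
    change sB _ _ = true at h
    change eB _ _ _ = true at h'
    rw [sB_iff] at h
    rw [eB_iff] at h'
    rcases h with h | h
    · exact E_S (long_pad φ) h h'
    · exact E_S (long_pad φ) h h'.symm

theorem yes_iff (φ : Cnf) : (inst φ).Yes ↔ ∃ M : WTree (Nm (Js (pad φ)).length),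
    (∀ u v, EAdj (lkN (pad φ)) u v → M.graph.Adj u v) ∧ ∀ u v, SAdj u v → ¬ M.graph.Adj u v := by
  constructor
  · rintro ⟨M, h1, h2⟩
    refine ⟨M.relabel (eqv _), fun u v h => ?_, fun u v h h' => ?_⟩
    · exact (M.relabel_adj (eqv _) u v).2 (h1 _ _ ((eB_iff _ u v).2 (Or.inl h)))
    · exact h2 _ _ ((sB_iff u v).2 (Or.inl h)) ((M.relabel_adj (eqv _) u v).1 h')
  · rintro ⟨M, h1, h2⟩
    have key : ∀ u v : Nm (Js (pad φ)).length,
        (M.relabel (eqv _).symm).graph.Adj (eqv _ u) (eqv _ v) ↔ M.graph.Adj u v := by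
      intro u v
      rw [WTree.relabel_adj, Equiv.symm_apply_apply, Equiv.symm_apply_apply]
    refine ⟨M.relabel (eqv _).symm, fun a b h => ?_, fun a b h h' => ?_⟩
    · obtain ⟨u, rfl⟩ := (eqv _).surjective a
      obtain ⟨v, rfl⟩ := (eqv _).surjective b
      refine (key u v).2 ?_
      rcases (eB_iff _ u v).1 h with h | h
      · exact h1 _ _ h
      · exact (h1 _ _ h).symm
    · obtain ⟨u, rfl⟩ := (eqv _).surjective a
      obtain ⟨v, rfl⟩ := (eqv _).surjective b
      replace h' := (key u v).1 h'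
      rcases (sB_iff u v).1 h with h | h
      · exact h2 _ _ h h'
      · exact h2 _ _ h h'.symm

/-- **Correctness of the reduction.** -/
theorem yes_iff_sat (φ : Cnf) : (inst φ).Yes ↔ Sat φ := by
  rw [yes_iff]
  constructor
  · rintro ⟨M, h1, h2⟩
    obtain ⟨x, y, r, -, h3, h4⟩ := sound_real M h1 h2
    have hidx : ∀ j ∈ Js (pad φ), (Js (pad φ)).idxOf j < (Js (pad φ)).length :=
      fun j hj => List.idxOf_lt_length_of_mem hj
    refine sat_of_con (r := r)
      (X := fun j => if h : (Js (pad φ)).idxOf j < (Js (pad φ)).length then x ⟨_, h⟩ else 0)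
      (Y := fun j => if h : (Js (pad φ)).idxOf j < (Js (pad φ)).length then y ⟨_, h⟩ else 0)
      ⟨fun i hi j hj hl => ?_, fun j hj => ?_⟩
    · simp only [hidx i hi, hidx j hj, dif_pos]
      refine h3 _ _ ?_
      unfold lkN
      simp only [Fin.getElem_fin, List.getElem_idxOf]
      exact hl
    · simp only [hidx j hj, dif_pos]
      exact h4 _
  · intro h
    obtain ⟨X, Y, h1, h2, h3⟩ := con_of_sat h
    exact complete_real (x := fun i => X (Js (pad φ))[i]) (y := fun i => Y (Js (pad φ))[i])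
      (fun i => h2 _ (List.getElem_mem i.2)) (fun i => h3 _ (List.getElem_mem i.2))
      (fun i j hl => h1.1 _ (List.getElem_mem i.2) _ (List.getElem_mem j.2) hl)
      (fun i => h1.2 _ (List.getElem_mem i.2))

/-! ### Encoding -/

theorem adjMatrix_inj {n : ℕ} {G G' : SimpleGraph (Fin n)} (h : adjMatrix G = adjMatrix G') :
    G = G' := by
  classical
  ext i j
  have h1 := congrFun (List.ofFn_injective (congrFun (List.ofFn_injective h) i)) j
  rwa [decide_eq_decide] at h1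

theorem encode_inj {I I' : GInput} (h : I.encode = I'.encode) : I = I' := by
  have h1 := bitEncode_injective h
  obtain ⟨n, G, S, hd⟩ := I
  obtain ⟨n', G', S', hd'⟩ := I'
  simp only [Prod.mk.injEq] at h1
  obtain ⟨h1, h2⟩ := h1
  have hn : n = n' := by simpa [adjMatrix] using congrArg List.length h1
  subst hn
  cases adjMatrix_inj h1
  cases adjMatrix_inj h2
  rfl

/-- Data of the reduction. -/
def raw (ψ : Cnf) : List (List Bool) × List (List Bool) :=
  ((List.range (10 * (Js ψ).length + 2)).map (fun a =>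
      (List.range (10 * (Js ψ).length + 2)).map (fun b => eB ψ a b)),
    (List.range (10 * (Js ψ).length + 2)).map (fun a =>
      (List.range (10 * (Js ψ).length + 2)).map (fun b => sB a b)))

theorem ofFn_range {α : Type} {n : ℕ} (f : ℕ → α) :
    List.ofFn (fun i : Fin n => f i) = (List.range n).map f := by
  refine List.ext_getElem (by simp) fun i h1 h2 => ?_
  simp

theorem encode_inst (φ : Cnf) : (inst φ).encode = bitEncode (raw (pad φ)) := by
  have key : ∀ (n : ℕ) (f : ℕ → ℕ → Bool) (G : SimpleGraph (Fin n))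
      (_ : ∀ i j, G.Adj i j ↔ f i j = true),
      adjMatrix G = (List.range n).map (fun a => (List.range n).map (fun b => f a b)) := by
    intro n f G hG
    classical
    unfold adjMatrix
    rw [← ofFn_range (n := n) (fun a => (List.range n).map (fun b => f a b))]
    congr 1
    funext i
    rw [← ofFn_range (n := n) (fun b => f i b)]
    congr 1
    funext j
    rw [Bool.eq_iff_iff, decide_eq_true_iff]
    exact hG i j
  unfold GInput.encode raw
  rw [key _ (eB (pad φ)) (inst φ).G fun i j => Iff.rfl, key _ sB (inst φ).S fun i j => Iff.rfl]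
  rfl

section ptf

variable {α : Type} [Enc α]

@[fun_prop]
theorem ptf_pad {φ : α → Cnf} (h : PTF φ) : PTF (fun a => pad (φ a)) := by
  unfold pad
  fun_prop

@[fun_prop]
theorem ptf_clz {φ : α → Cnf} {c : α → ℕ} (h : PTF φ) (hc : PTF c) :
    PTF (fun a => clz (φ a) (c a)) := by
  unfold clz
  fun_prop

@[fun_prop]
theorem ptf_ltr {φ : α → Cnf} {c k : α → ℕ} (h : PTF φ) (hc : PTF c) (hk : PTF k) :
    PTF (fun a => ltr (φ a) (c a) (k a)) := by
  unfold ltr
  fun_prop

@[fun_prop]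
theorem ptf_bnd {φ : α → Cnf} (h : PTF φ) : PTF (fun a => bnd (φ a)) := by
  unfold bnd
  fun_prop

@[fun_prop]
theorem ptf_Js {φ : α → Cnf} (h : PTF φ) : PTF (fun a => Js (φ a)) := by
  unfold Js
  fun_prop

@[fun_prop]
theorem ptf_sg {b : α → Bool} (h : PTF b) : PTF (fun a => sg (b a)) := by
  unfold sg
  fun_prop

@[fun_prop]
theorem ptf_lk {φ : α → Cnf} {i j : α → J} (h : PTF φ) (hi : PTF i) (hj : PTF j) :
    PTF (fun a => lk (φ a) (i a) (j a)) := by
  unfold lk
  fun_prop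

@[fun_prop]
theorem ptf_dec {u : α → ℕ} (h : PTF u) : PTF (fun a => dec (u a)) := by
  unfold dec
  fun_prop

@[fun_prop]
theorem ptf_eT {φ : α → Cnf} {i j : α → T4} (h : PTF φ) (hi : PTF i) (hj : PTF j) :
    PTF (fun a => eT (φ a) (i a) (j a)) := by
  unfold eT
  fun_prop

@[fun_prop]
theorem ptf_sT {i j : α → T4} (hi : PTF i) (hj : PTF j) : PTF (fun a => sT (i a) (j a)) := by
  unfold sT
  fun_prop

@[fun_prop]
theorem ptf_eB {φ : α → Cnf} {i j : α → ℕ} (h : PTF φ) (hi : PTF i) (hj : PTF j) :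
    PTF (fun a => eB (φ a) (i a) (j a)) := by
  unfold eB
  fun_prop

@[fun_prop]
theorem ptf_sB {i j : α → ℕ} (hi : PTF i) (hj : PTF j) : PTF (fun a => sB (i a) (j a)) := by
  unfold sB
  fun_prop

theorem ptf_raw {φ : α → Cnf} (h : PTF φ) : PTF (fun a => raw (φ a)) := by
  unfold raw
  fun_prop

/-- The encoded reduction is polynomial-time. -/
theorem ptf_encode {φ : α → Cnf} (h : PTF φ) : PTF (fun a => (inst (φ a)).encode) := by
  have h1 : PTF (fun a => bitEncode (raw (pad (φ a)))) :=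
    ((EncP.list (EncP.list EncP.bool)).prod (EncP.list (EncP.list EncP.bool))).apply
      (ptf_raw (ptf_pad h))
  exact h1.congr fun a => (encode_inst (φ a)).symm

end ptf

/-- **Generalized PCG recognition is NP-hard.** -/
theorem hard {L : List Bool → Bool} (h : L ∈ N68a2faeb.NP) :
    ∃ f : List Bool → List Bool, N68a2faeb.IsPolyTime f ∧ ∀ x, L x = true ↔ GLang (f x) := by
  obtain ⟨g, hg, h1⟩ := cookLevin h
  refine ⟨fun x => (inst (g x)).encode, (ptf_encode hg).isPolyTime (EncP.list EncP.bool),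
    fun x => ?_⟩
  rw [h1]
  have e : Satisf (g x) ↔ Sat (g x) := Iff.rfl
  rw [e, ← yes_iff_sat]
  constructor
  · intro h2
    exact ⟨_, rfl, h2⟩
  · rintro ⟨I, hI, h2⟩
    rw [← encode_inj hI]
    exact h2

end Pool.Agent.PCG
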