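import Pool.Agent.Work.MP_9390ab_lc.Poly
import Pool.Agent.Work.MP_9390ab_lc.Build2
import Pool.Agent.Work.MP_9390ab_lc.CS2

/-!
# Generalized PCG recognition with few inner vertices
-/

set_option autoImplicit false

namespace Pool.Agent.PCG

open Nm PT N487b59b3

/-- The number of inner vertices (vertices with at least two neighbours) of the tree. -/
noncomputable def WTree.inner {V : Type} (M : WTree V) : ℕ :=
  {x : M.W | 1 < (M.T.neighborSet x).ncard}.ncard

/-- The tree `M` with its two numbers realises the input: its pairwise compatibility graph contains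
all edges of `G` and no pair of `S`. -/
def GInput.Realises (I : GInput) (M : WTree (Fin I.n)) : Prop :=
  (∀ u v, I.G.Adj u v → M.graph.Adj u v) ∧ ∀ u v, I.S.Adj u v → ¬ M.graph.Adj u v

theorem inner_eq {V : Type} (M : WTree V) : M.inner = ((Set.range M.leaf)ᶜ).ncard := by
  unfold WTree.inner
  congr 1
  ext x
  rw [Set.mem_compl_iff, M.mem_range_leaf, Set.mem_ofPred_eq, not_le]

theorem inner_relabel {V V' : Type} (M : WTree V) (e : V' ≃ V) :
    (M.relabel e).inner = M.inner := rfl

theorem pad_pos (φ : Cnf) : 0 < (Js (pad φ)).length := by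
  have h : ((0, 0, 0) : J) ∈ Js (pad φ) := by
    rw [mem_Js]
    refine Or.inl ⟨by norm_num, ?_, rfl⟩
    exact Nat.succ_pos _
  exact List.length_pos_of_mem h

/-- A satisfiable formula gives an input which is realised by a tree with at most ten inner
vertices. -/
theorem sat_realises {φ : Cnf} (h : Sat φ) :
    ∃ M : WTree (Fin (inst φ).n), (inst φ).Realises M ∧ M.inner ≤ 10 := by
  obtain ⟨X, Y, h1, h2, h3⟩ := con_of_sat2 h
  obtain ⟨M, m1, m2, m3⟩ := B2.complete_real (link := lkN (pad φ)) ⟨0, pad_pos φ⟩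
    (x := fun i => X (Js (pad φ))[i]) (y := fun i => Y (Js (pad φ))[i])
    (fun i => h2 _ (List.getElem_mem i.2)) (fun i => h3 _ (List.getElem_mem i.2))
    (fun i j hl => h1.1 _ (List.getElem_mem i.2) _ (List.getElem_mem j.2) hl)
    (fun i => h1.2 _ (List.getElem_mem i.2))
  have key : ∀ u v : Nm (Js (pad φ)).length,
      (M.relabel (eqv _).symm).graph.Adj (eqv _ u) (eqv _ v) ↔ M.graph.Adj u v := by
    intro u v
    rw [WTree.relabel_adj, Equiv.symm_apply_apply, Equiv.symm_apply_apply]
  refine ⟨M.relabel (eqv _).symm, ⟨fun a b h => ?_, fun a b h h' => ?_⟩, ?_⟩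
  · obtain ⟨u, rfl⟩ := (eqv _).surjective a
    obtain ⟨v, rfl⟩ := (eqv _).surjective b
    refine (key u v).2 ?_
    rcases (eB_iff _ u v).1 h with h | h
    · exact m1 _ _ h
    · exact (m1 _ _ h).symm
  · obtain ⟨u, rfl⟩ := (eqv _).surjective a
    obtain ⟨v, rfl⟩ := (eqv _).surjective b
    replace h' := (key u v).1 h'
    rcases (sB_iff u v).1 h with h | h
    · exact m2 _ _ h h'
    · exact m2 _ _ h h'.symm
  · rw [inner_relabel, inner_eq]
    exact m3

/-- The gap form. -/
theorem hard_gap {L : List Bool → Bool} (h : L ∈ N68a2faeb.NP) :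
    ∃ f : List Bool → List Bool, N68a2faeb.IsPolyTime f ∧ ∀ x, ∃ I : GInput, I.encode = f x ∧
      (L x = true → ∃ M : WTree (Fin I.n), I.Realises M ∧ M.inner ≤ 10) ∧
      (L x = false → ∀ M : WTree (Fin I.n), ¬ I.Realises M) := by
  obtain ⟨g, hg, h1⟩ := cookLevin h
  refine ⟨fun x => (inst (g x)).encode, (ptf_encode hg).isPolyTime (EncP.list EncP.bool),
    fun x => ⟨inst (g x), rfl, ?_, ?_⟩⟩
  · intro hx
    exact sat_realises ((h1 x).1 hx)
  · intro hx M hM
    have h2 : L x = true := (h1 x).2 ((yes_iff_sat (g x)).1 ⟨M, hM.1, hM.2⟩)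
    rw [hx] at h2
    exact Bool.false_ne_true h2

/-- The codes of the inputs which are realised by a tree with the property `P`. -/
def GLangP (P : ∀ n : ℕ, WTree (Fin n) → Prop) (x : List Bool) : Prop :=
  ∃ I : GInput, I.encode = x ∧ ∃ M : WTree (Fin I.n), I.Realises M ∧ P I.n M

/-- Hardness for all classes of trees which contain the trees with at most ten inner vertices, with
one reduction for all classes. -/
theorem hard_class {L : List Bool → Bool} (h : L ∈ N68a2faeb.NP) :
    ∃ f : List Bool → List Bool, N68a2faeb.IsPolyTime f ∧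
      ∀ P : ∀ n : ℕ, WTree (Fin n) → Prop,
        (∀ (n : ℕ) (M : WTree (Fin n)), M.inner ≤ 10 → P n M) →
        ∀ x, L x = true ↔ GLangP P (f x) := by
  obtain ⟨f, hf, h1⟩ := hard_gap h
  refine ⟨f, hf, fun P hP x => ?_⟩
  obtain ⟨I, hI, h2, h3⟩ := h1 x
  constructor
  · intro hx
    obtain ⟨M, m1, m2⟩ := h2 hx
    exact ⟨I, hI, M, m1, hP _ M m2⟩
  · rintro ⟨I', hI', M, m1, -⟩
    by_contra hx
    have hx' : L x = false := by simpa using hx
    obtain rfl : I' = I := encode_inj (hI'.trans hI.symm)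
    exact h3 hx' M m1

end Pool.Agent.PCG
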