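import Pool.Agent.Work.MP_9390ab_lc.Star
import Pool.Agent.Work.MP_9390ab_lc.Build3

/-!
# Generalized PCG recognition with at most `k` inner vertices is NP-hard for every `k ≥ 1`
-/

set_option autoImplicit false

namespace Pool.Agent.PCG

open Nm PT N487b59b3 SimpleGraph

/-- A satisfiable formula gives an input which is realised by a tree with at most two inner
vertices. -/
theorem sat_realises3 {φ : Cnf} (h : Sat φ) :
    ∃ M : WTree (Fin (inst φ).n), (inst φ).Realises M ∧ M.inner ≤ 2 := by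
  obtain ⟨X, Y, h1, h2, h3⟩ := B3.con_of_sat3 h
  obtain ⟨M, m1, m2, m3⟩ := B3.complete_real (link := lkN (pad φ))
    (x := fun i => X (Js (pad φ))[i]) (y := fun i => Y (Js (pad φ))[i])
    (fun i => h2 _ (List.getElem_mem i.2)) (fun i => h3 _ (List.getElem_mem i.2))
    (fun i j hl => h1.1 _ (List.getElem_mem i.2) _ (List.getElem_mem j.2) hl)
    (fun i => h1.2 _ (List.getElem_mem i.2))
  have key : ∀ u v : Nm (Js (pad φ)).length,
      (M.relabel (eqv _).symm).graph.Adj (eqv _ u) (eqv _ v) ↔ M.graph.Adj u v := by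
    intro u v
    rw [WTree.relabel_adj, Equiv.symm_apply_apply, Equiv.symm_apply_apply]
  refine ⟨M.relabel (eqv _).symm, ⟨fun a b h => ?_, fun a b h h' => ?_⟩, ?_⟩
  · obtain ⟨u, rfl⟩ := (eqv _).surjective a
    obtain ⟨v, rfl⟩ := (eqv _).surjective b
    refine (key u v).2 ?_
    rcases (eB_iff _ u v).1 h with h | h
    · exact m1 _ _ h
    · exact (m1 _ _ h).symm
  · obtain ⟨u, rfl⟩ := (eqv _).surjective a
    obtain ⟨v, rfl⟩ := (eqv _).surjective b
    replace h' := (key u v).1 h'
    rcases (sB_iff u v).1 h with h | h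
    · exact m2 _ _ h h'
    · exact m2 _ _ h h'.symm
  · rw [inner_relabel, inner_eq]
    exact m3

/-- The gap form, with two inner vertices. -/
theorem hard_gap3 {L : List Bool → Bool} (h : L ∈ N68a2faeb.NP) :
    ∃ f : List Bool → List Bool, N68a2faeb.IsPolyTime f ∧ ∀ x, ∃ I : GInput, I.encode = f x ∧
      (L x = true → ∃ M : WTree (Fin I.n), I.Realises M ∧ M.inner ≤ 2) ∧
      (L x = false → ∀ M : WTree (Fin I.n), ¬ I.Realises M) := by
  obtain ⟨g, hg, h1⟩ := cookLevin h
  refine ⟨fun x => (inst (g x)).encode, (ptf_encode hg).isPolyTime (EncP.list EncP.bool),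
    fun x => ⟨inst (g x), rfl, ?_, ?_⟩⟩
  · intro hx
    exact sat_realises3 ((h1 x).1 hx)
  · intro hx M hM
    have h2 : L x = true := (h1 x).2 ((yes_iff_sat (g x)).1 ⟨M, hM.1, hM.2⟩)
    rw [hx] at h2
    exact Bool.false_ne_true h2

/-- Hardness for all classes of trees which contain the trees with at most two inner vertices, with
one reduction for all classes. -/
theorem hard_class3 {L : List Bool → Bool} (h : L ∈ N68a2faeb.NP) :
    ∃ f : List Bool → List Bool, N68a2faeb.IsPolyTime f ∧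
      ∀ P : ∀ n : ℕ, WTree (Fin n) → Prop,
        (∀ (n : ℕ) (M : WTree (Fin n)), M.inner ≤ 2 → P n M) →
        ∀ x, L x = true ↔ GLangP P (f x) := by
  obtain ⟨f, hf, h1⟩ := hard_gap3 h
  refine ⟨f, hf, fun P hP x => ?_⟩
  obtain ⟨I, hI, h2, h3⟩ := h1 x
  constructor
  · intro hx
    obtain ⟨M, m1, m2⟩ := h2 hx
    exact ⟨I, hI, M, m1, hP _ M m2⟩
  · rintro ⟨I', hI', M, m1, -⟩
    by_contra hx
    have hx' : L x = false := by simpa using hx
    obtain rfl : I' = I := encode_inj (hI'.trans hI.symm)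
    exact h3 hx' M m1

theorem exists_adj_of_walk {W : Type} {T : SimpleGraph W} {a b : W} (p : T.Walk a b)
    (h : a ≠ b) : ∃ y, T.Adj a y := by
  cases p with
  | nil => exact absurd rfl h
  | cons h _ => exact ⟨_, h⟩

/-- A tree with at least three leaves and at most one inner vertex is a star. -/
theorem isStar_of_inner {n : ℕ} (hn : 3 ≤ n) (M : WTree (Fin n)) (h : M.inner ≤ 1) :
    M.IsStar := by
  have hfin : Finite M.W := M.finite
  have hone : ∀ a b : M.W, 1 < (M.T.neighborSet a).ncard → 1 < (M.T.neighborSet b).ncard →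
      a = b := fun a b ha hb => (Set.ncard_le_one_iff (Set.toFinite _)).1 h ha hb
  have key : ∀ v : Fin n, ∃ y, M.T.Adj (M.leaf v) y ∧ 1 < (M.T.neighborSet y).ncard := by
    intro v
    obtain ⟨v1, v2, hv1, hv2, hv12⟩ : ∃ v1 v2 : Fin n, v1 ≠ v ∧ v2 ≠ v ∧ v1 ≠ v2 := by
      have h0 : ((Finset.univ : Finset (Fin n)).erase v).card = n - 1 := by
        rw [Finset.card_erase_of_mem (Finset.mem_univ v), Finset.card_univ, Fintype.card_fin]
      obtain ⟨a, ha, b, hb, hab⟩ := Finset.one_lt_card.1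
        (show 1 < ((Finset.univ : Finset (Fin n)).erase v).card by omega)
      exact ⟨a, b, (Finset.mem_erase.1 ha).1, (Finset.mem_erase.1 hb).1, hab⟩
    have hne : M.leaf v ≠ M.leaf v1 := fun h => hv1 (M.leaf_injective h).symm
    obtain ⟨y, hy⟩ : ∃ y, M.T.Adj (M.leaf v) y := by
      obtain ⟨p⟩ := M.isTree.connected.preconnected (M.leaf v) (M.leaf v1)
      exact exists_adj_of_walk p hne
    refine ⟨y, hy, ?_⟩
    by_contra hcon
    push Not at hcon
    have hl : (M.T.neighborSet (M.leaf v)).ncard ≤ 1 := (M.mem_range_leaf _).1 ⟨v, rfl⟩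
    have hl1 : ∀ a b, M.T.Adj (M.leaf v) a → M.T.Adj (M.leaf v) b → a = b :=
      fun a b ha hb => (Set.ncard_le_one_iff (Set.toFinite _)).1 hl ha hb
    have hy1 : ∀ a b, M.T.Adj y a → M.T.Adj y b → a = b :=
      fun a b ha hb => (Set.ncard_le_one_iff (Set.toFinite _)).1 hcon ha hb
    have hclosed : ∀ a b, M.T.Walk a b → (a = M.leaf v ∨ a = y) → (b = M.leaf v ∨ b = y) := by
      intro a b p
      induction p with
      | nil => exact id
      | cons hab _ ih =>
        intro ha
        apply ih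
        rcases ha with rfl | rfl
        · right
          exact hl1 _ _ hab hy
        · left
          exact hy1 _ _ hab hy.symm
    have hall : ∀ u : Fin n, u ≠ v → M.leaf u = y := by
      intro u hu
      obtain ⟨p⟩ := M.isTree.connected.preconnected (M.leaf v) (M.leaf u)
      rcases hclosed _ _ p (Or.inl rfl) with h | h
      · exact absurd (M.leaf_injective h) hu
      · exact h
    exact hv12 (M.leaf_injective ((hall v1 hv1).trans (hall v2 hv2).symm))
  obtain ⟨c, hc1, hc2⟩ := key ⟨0, by omega⟩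
  refine ⟨c, fun v => ?_⟩
  obtain ⟨y, hy1, hy2⟩ := key v
  rw [← hone _ _ hy2 hc2]
  exact hy1

theorem three_le_n (φ : Cnf) : 3 ≤ (Star.inst2 φ).n := by
  have h1 : ((0, 0, 0) : J) ∈ Js (pad φ) := mem_Js.2 (Or.inl ⟨by norm_num, Nat.succ_pos _, rfl⟩)
  have h2 : ((1, 0, 0) : J) ∈ Js (pad φ) := mem_Js.2 (Or.inl ⟨by norm_num, Nat.succ_pos _, rfl⟩)
  have h3 : 2 ≤ (Js (pad φ)).length := by
    have h4 : ({(0, 0, 0), (1, 0, 0)} : Finset J) ⊆ (Js (pad φ)).toFinset := by
      intro a ha
      rw [Finset.mem_insert, Finset.mem_singleton] at ha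
      rcases ha with rfl | rfl
      · exact List.mem_toFinset.2 h1
      · exact List.mem_toFinset.2 h2
    have h5 := Finset.card_le_card h4
    have h6 := List.toFinset_card_le (Js (pad φ))
    have h7 : ({(0, 0, 0), (1, 0, 0)} : Finset J).card = 2 := by decide
    omega
  show 3 ≤ 2 * (Js (pad φ)).length
  omega

/-- Hardness for at most one inner vertex. -/
theorem hard_one {L : List Bool → Bool} (h : L ∈ N68a2faeb.NP) :
    ∃ f : List Bool → List Bool, N68a2faeb.IsPolyTime f ∧
      ∀ x, L x = true ↔ GLangP (fun _ M => M.inner ≤ 1) (f x) := by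
  obtain ⟨g, hg, h1⟩ := cookLevin h
  refine ⟨fun x => (Star.inst2 (g x)).encode,
    (Star.ptf_encode2 hg).isPolyTime (EncP.list EncP.bool), fun x => ?_⟩
  rw [h1]
  have e : Satisf (g x) ↔ Sat (g x) := Iff.rfl
  rw [e]
  constructor
  · intro h2
    obtain ⟨M, m1, m2⟩ := Star.star_of_sat' h2
    exact ⟨_, rfl, M, m1, m2⟩
  · rintro ⟨I, hI, M, m1, m2⟩
    obtain rfl : I = Star.inst2 (g x) := encode_inj hI
    exact Star.sat_of_star m1 (isStar_of_inner (three_le_n _) M m2)

/-- Hardness for at most `k` inner vertices, for every `k ≥ 1`. -/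
theorem hard_every {k : ℕ} (hk : 1 ≤ k) {L : List Bool → Bool} (h : L ∈ N68a2faeb.NP) :
    ∃ f : List Bool → List Bool, N68a2faeb.IsPolyTime f ∧
      ∀ x, L x = true ↔ GLangP (fun _ M => M.inner ≤ k) (f x) := by
  rcases hk.eq_or_lt with rfl | hk
  · exact hard_one h
  · obtain ⟨f, hf, h1⟩ := hard_class3 h
    exact ⟨f, hf, h1 _ fun n M hM => hM.trans hk⟩

end Pool.Agent.PCG
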