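import Pool.Agent.Work.MP_9390ab_lc.Poly2
import Pool.Agent.Work.MP_9390ab_lc.CN.I_LB

/-!
# Generalized PCG recognition with stars is NP-hard
-/

set_option autoImplicit false

namespace Pool.Agent.PCG

open PT N487b59b3 SimpleGraph

/-- The tree is a star: all leaves are neighbours of one vertex. -/
def WTree.IsStar {V : Type} (M : WTree V) : Prop := ∃ c, ∀ v, M.T.Adj (M.leaf v) c

/-- Distances in a star. -/
theorem WTree.IsStar.dist {V : Type} {M : WTree V} (h : M.IsStar) :
    ∃ w : V → ℝ, ∀ u v, u ≠ v → M.dist u v = w u + w v := by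
  obtain ⟨c, hc⟩ := h
  refine ⟨fun v => M.wt s(M.leaf v, c), fun u v huv => ?_⟩
  have h1 : M.leaf u ≠ M.leaf v := fun h => huv (M.leaf_injective h)
  refine (treeDist_two M.isTree M.wt (hc u) (hc v).symm ?_).trans ?_
  · have a1 := (hc u).ne
    have a2 := (hc v).ne'
    simp [h1, a1, a2]
  · rw [Sym2.eq_swap (a := c)]

namespace Star

/-- The required edges (one orientation): the numbers `2 * i` and `2 * j + 1` of linked rungs. -/
def eS (ψ : Cnf) (a b : ℕ) : Bool :=
  decide (a % 2 = 0 ∧ b % 2 = 1 ∧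
    lk ψ ((Js ψ).getD (a / 2) (0, 0, 0)) ((Js ψ).getD (b / 2) (0, 0, 0)) = true)

/-- The required edges. -/
def e2 (ψ : Cnf) (a b : ℕ) : Bool := eS ψ a b || eS ψ b a

/-- The forbidden edges. -/
def s2 (a b : ℕ) : Bool := decide (a / 2 = b / 2 ∧ a % 2 ≠ b % 2)

theorem eS_iff {ψ : Cnf} {a b : ℕ} : eS ψ a b = true ↔ (a % 2 = 0 ∧ b % 2 = 1 ∧
    lk ψ ((Js ψ).getD (a / 2) (0, 0, 0)) ((Js ψ).getD (b / 2) (0, 0, 0)) = true) := by
  unfold eS
  rw [decide_eq_true_iff]

theorem e2_iff {ψ : Cnf} {a b : ℕ} : e2 ψ a b = true ↔ (eS ψ a b = true ∨ eS ψ b a = true) := by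
  unfold e2
  rw [Bool.or_eq_true]

theorem s2_iff {a b : ℕ} : s2 a b = true ↔ (a / 2 = b / 2 ∧ a % 2 ≠ b % 2) := by
  unfold s2
  rw [decide_eq_true_iff]

theorem getD_mem {ψ : Cnf} {k : ℕ} (h : k < (Js ψ).length) :
    (Js ψ).getD k (0, 0, 0) ∈ Js ψ := by
  rw [List.getD_eq_getElem _ _ h]
  exact List.getElem_mem h

/-- The instance of a formula. -/
def inst2 (φ : Cnf) : GInput where
  n := 2 * (Js (pad φ)).length
  G :=
    { Adj := fun a b => e2 (pad φ) a b = true
      symm := ⟨fun a b h => by unfold e2 at h ⊢; rwa [Bool.or_comm]⟩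
      loopless := ⟨fun a h => by
        rw [e2_iff, eS_iff] at h
        rcases h with h | h <;> omega⟩ }
  S :=
    { Adj := fun a b => s2 a b = true
      symm := ⟨fun a b h => by
        rw [s2_iff] at h ⊢
        exact ⟨h.1.symm, h.2.symm⟩⟩
      loopless := ⟨fun a h => by
        rw [s2_iff] at h
        exact h.2 rfl⟩ }
  disj := fun a b h h' => by
    change s2 a b = true at h
    change e2 (pad φ) a b = true at h'
    rw [s2_iff] at h
    have ha : (a : ℕ) / 2 < (Js (pad φ)).length := by have := a.2; omega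
    have key := lk_irrefl (long_pad φ) (getD_mem ha)
    rw [e2_iff, eS_iff, eS_iff] at h'
    rcases h' with h' | h'
    · rw [← h.1] at h'
      rw [key] at h'
      exact absurd h'.2.2 (by simp)
    · rw [← h.1] at h'
      rw [key] at h'
      exact absurd h'.2.2 (by simp)

theorem Js_pos (ψ : Cnf) : 0 < (Js ψ).length := by
  have h : ((0, 0, 0) : J) ∈ Js ψ := mem_Js.2 (Or.inl ⟨by norm_num, Nat.succ_pos _, rfl⟩)
  exact List.length_pos_of_mem h

/-- Soundness. -/
theorem sat_of_star {φ : Cnf} {M : WTree (Fin (inst2 φ).n)} (hM : (inst2 φ).Realises M)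
    (hs : M.IsStar) : Sat φ := by
  obtain ⟨w, hw⟩ := hs.dist
  have h0 := M.dmin_le_dmax
  have hidx : ∀ j ∈ Js (pad φ), (Js (pad φ)).idxOf j < (Js (pad φ)).length :=
    fun j hj => List.idxOf_lt_length_of_mem hj
  have hn : (inst2 φ).n = 2 * (Js (pad φ)).length := rfl
  refine sat_of_con (r := (M.dmax - M.dmin) / 2)
    (X := fun j => if h : (Js (pad φ)).idxOf j < (Js (pad φ)).length then
      w ⟨2 * (Js (pad φ)).idxOf j, by omega⟩ - (M.dmin + M.dmax) / 2 else 0)
    (Y := fun j => if h : (Js (pad φ)).idxOf j < (Js (pad φ)).length then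
      w ⟨2 * (Js (pad φ)).idxOf j + 1, by omega⟩ else 0)
    ⟨fun i hi j hj hl => ?_, fun j hj => ?_⟩
  · simp only [hidx i hi, hidx j hj, dif_pos]
    have hne : (⟨2 * (Js (pad φ)).idxOf i, by have := hidx i hi; omega⟩ : Fin (inst2 φ).n) ≠
        ⟨2 * (Js (pad φ)).idxOf j + 1, by have := hidx j hj; omega⟩ := by
      intro h
      have := congrArg Fin.val h
      simp only at this
      omega
    have h1 : (inst2 φ).G.Adj ⟨2 * (Js (pad φ)).idxOf i, by have := hidx i hi; omega⟩
        ⟨2 * (Js (pad φ)).idxOf j + 1, by have := hidx j hj; omega⟩ := by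
      change e2 (pad φ) _ _ = true
      rw [e2_iff, eS_iff]
      left
      refine ⟨by simp only; omega, by simp only; omega, ?_⟩
      have e1 : 2 * (Js (pad φ)).idxOf i / 2 = (Js (pad φ)).idxOf i := by omega
      have e3 : (2 * (Js (pad φ)).idxOf j + 1) / 2 = (Js (pad φ)).idxOf j := by omega
      simp only [e1, e3]
      rw [List.getD_eq_getElem _ _ (hidx i hi), List.getD_eq_getElem _ _ (hidx j hj),
        List.getElem_idxOf, List.getElem_idxOf]
      exact hl
    have h2 := (hM.1 _ _ h1).2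
    rw [hw _ _ hne] at h2
    rw [abs_le]
    constructor <;> linarith [h2.1, h2.2]
  · simp only [hidx j hj, dif_pos]
    have hne : (⟨2 * (Js (pad φ)).idxOf j, by have := hidx j hj; omega⟩ : Fin (inst2 φ).n) ≠
        ⟨2 * (Js (pad φ)).idxOf j + 1, by have := hidx j hj; omega⟩ := by
      intro h
      have := congrArg Fin.val h
      simp only at this
      omega
    have h1 : (inst2 φ).S.Adj ⟨2 * (Js (pad φ)).idxOf j, by have := hidx j hj; omega⟩
        ⟨2 * (Js (pad φ)).idxOf j + 1, by have := hidx j hj; omega⟩ := by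
      change s2 _ _ = true
      rw [s2_iff]
      simp only
      omega
    have h2 := hM.2 _ _ h1
    have h3 : ¬ (M.dmin ≤ M.dist ⟨2 * (Js (pad φ)).idxOf j, by have := hidx j hj; omega⟩
        ⟨2 * (Js (pad φ)).idxOf j + 1, by have := hidx j hj; omega⟩ ∧
        M.dist ⟨2 * (Js (pad φ)).idxOf j, by have := hidx j hj; omega⟩
        ⟨2 * (Js (pad φ)).idxOf j + 1, by have := hidx j hj; omega⟩ ≤ M.dmax) :=
      fun h => h2 ⟨hne, h⟩
    rw [hw _ _ hne] at h3
    rw [lt_abs]
    by_contra h4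
    push Not at h4
    exact h3 ⟨by linarith [h4.2], by linarith [h4.1]⟩

theorem inner_model {n : ℕ} (hn : 2 ≤ n) (w : Fin n → ℝ) (hw : ∀ i, 0 < w i) (a b : ℝ)
    (ha : 0 ≤ a) (hab : a ≤ b) : (CN.LB.model hn w hw a b ha hab).inner ≤ 1 := by
  rw [inner_eq]
  have hsub : (Set.range (CN.LB.model hn w hw a b ha hab).leaf)ᶜ ⊆
      ({none} : Set (Option (Fin n))) := by
    intro x hx
    cases x with
    | none => rfl
    | some u => exact absurd ⟨u, rfl⟩ hx
  refine (Set.ncard_le_ncard hsub (Set.finite_singleton _)).trans ?_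
  exact (Set.ncard_singleton (none : Option (Fin n))).le

/-- Completeness. -/
theorem star_of_sat_aux {φ : Cnf} (h : Sat φ) :
    ∃ M : WTree (Fin (inst2 φ).n), (inst2 φ).Realises M ∧ M.IsStar ∧ M.inner ≤ 1 := by
  obtain ⟨X, Y, h1, h2, h3⟩ := con_of_sat h
  have hpos := Js_pos (pad φ)
  have hn : (inst2 φ).n = 2 * (Js (pad φ)).length := rfl
  let w : Fin (inst2 φ).n → ℝ := fun m => 9 + if (m : ℕ) % 2 = 0 then
    X ((Js (pad φ)).getD (m / 2) (0, 0, 0)) else Y ((Js (pad φ)).getD (m / 2) (0, 0, 0))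
  have hmem : ∀ m : Fin (inst2 φ).n, (Js (pad φ)).getD ((m : ℕ) / 2) (0, 0, 0) ∈ Js (pad φ) :=
    fun m => getD_mem (by have := m.2; omega)
  have hw : ∀ m, 0 < w m := by
    intro m
    have a1 := abs_le.1 (h2 _ (hmem m))
    have a2 := abs_le.1 (h3 _ (hmem m))
    show 0 < 9 + _
    split_ifs <;> linarith [a1.1, a2.1]
  refine ⟨CN.LB.model (n := (inst2 φ).n) (by omega) w hw 17 19 (by norm_num) (by norm_num),
    ⟨fun u v huv => ?_, fun u v huv hadj => ?_⟩, ⟨none, fun v => CN.LB.adj_some v⟩,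
    inner_model _ _ _ _ _ _ _⟩
  · have key : ∀ u v : Fin (inst2 φ).n, eS (pad φ) u v = true →
        (CN.LB.model (n := (inst2 φ).n) (by omega) w hw 17 19 (by norm_num)
          (by norm_num)).graph.Adj u v := by
      intro u v h
      rw [eS_iff] at h
      obtain ⟨b1, b2, b3⟩ := h
      rw [CN.LB.model_adj]
      have b4 := abs_le.1 (h1.1 _ (hmem u) _ (hmem v) b3)
      have e1 : w u = 9 + X ((Js (pad φ)).getD ((u : ℕ) / 2) (0, 0, 0)) := by
        show 9 + _ = _
        rw [if_pos b1]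
      have e3 : w v = 9 + Y ((Js (pad φ)).getD ((v : ℕ) / 2) (0, 0, 0)) := by
        show 9 + _ = _
        rw [if_neg (by omega)]
      rw [e1, e3]
      refine ⟨?_, by linarith [b4.1], by linarith [b4.2]⟩
      rintro rfl
      omega
    rcases e2_iff.1 huv with h | h
    · exact key u v h
    · exact (key v u h).symm
  · have key : ∀ u v : Fin (inst2 φ).n, (u : ℕ) / 2 = (v : ℕ) / 2 → (u : ℕ) % 2 = 0 →
        (v : ℕ) % 2 = 1 → ¬ (CN.LB.model (n := (inst2 φ).n) (by omega) w hw 17 19 (by norm_num)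
          (by norm_num)).graph.Adj u v := by
      intro u v b1 b2 b3 h
      rw [CN.LB.model_adj] at h
      have b4 := h1.2 _ (hmem u)
      have e1 : w u = 9 + X ((Js (pad φ)).getD ((u : ℕ) / 2) (0, 0, 0)) := by
        show 9 + _ = _
        rw [if_pos b2]
      have e3 : w v = 9 + Y ((Js (pad φ)).getD ((u : ℕ) / 2) (0, 0, 0)) := by
        show 9 + _ = _
        rw [if_neg (by omega), b1]
      rw [e1, e3] at h
      obtain ⟨-, h4, h5⟩ := h
      rcases lt_abs.1 b4 with b4 | b4 <;> linarith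
    obtain ⟨b1, b2⟩ := s2_iff.1 huv
    rcases Nat.mod_two_eq_zero_or_one (u : ℕ) with b3 | b3
    · exact key u v b1 b3 (by omega) hadj
    · exact key v u b1.symm (by omega) b3 hadj.symm

theorem star_of_sat {φ : Cnf} (h : Sat φ) :
    ∃ M : WTree (Fin (inst2 φ).n), (inst2 φ).Realises M ∧ M.IsStar := by
  obtain ⟨M, m1, m2, -⟩ := star_of_sat_aux h
  exact ⟨M, m1, m2⟩

theorem star_of_sat' {φ : Cnf} (h : Sat φ) :
    ∃ M : WTree (Fin (inst2 φ).n), (inst2 φ).Realises M ∧ M.inner ≤ 1 := by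
  obtain ⟨M, m1, -, m3⟩ := star_of_sat_aux h
  exact ⟨M, m1, m3⟩

/-- Data of the reduction. -/
def raw2 (ψ : Cnf) : List (List Bool) × List (List Bool) :=
  ((List.range (2 * (Js ψ).length)).map (fun a =>
      (List.range (2 * (Js ψ).length)).map (fun b => e2 ψ a b)),
    (List.range (2 * (Js ψ).length)).map (fun a =>
      (List.range (2 * (Js ψ).length)).map (fun b => s2 a b)))

theorem encode_inst2 (φ : Cnf) : (inst2 φ).encode = bitEncode (raw2 (pad φ)) := by
  have key : ∀ (n : ℕ) (f : ℕ → ℕ → Bool) (G : SimpleGraph (Fin n))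
      (_ : ∀ i j, G.Adj i j ↔ f i j = true),
      adjMatrix G = (List.range n).map (fun a => (List.range n).map (fun b => f a b)) := by
    intro n f G hG
    classical
    unfold adjMatrix
    rw [← ofFn_range (n := n) (fun a => (List.range n).map (fun b => f a b))]
    congr 1
    funext i
    rw [← ofFn_range (n := n) (fun b => f i b)]
    congr 1
    funext j
    rw [Bool.eq_iff_iff, decide_eq_true_iff]
    exact hG i j
  unfold GInput.encode raw2
  rw [key _ (e2 (pad φ)) (inst2 φ).G fun i j => Iff.rfl,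
    key _ s2 (inst2 φ).S fun i j => Iff.rfl]
  rfl

section ptf

variable {α : Type} [Enc α]

@[fun_prop]
theorem ptf_eS {φ : α → Cnf} {i j : α → ℕ} (h : PTF φ) (hi : PTF i) (hj : PTF j) :
    PTF (fun a => eS (φ a) (i a) (j a)) := by
  unfold eS
  fun_prop

@[fun_prop]
theorem ptf_e2 {φ : α → Cnf} {i j : α → ℕ} (h : PTF φ) (hi : PTF i) (hj : PTF j) :
    PTF (fun a => e2 (φ a) (i a) (j a)) := by
  unfold e2
  fun_prop

@[fun_prop]
theorem ptf_s2 {i j : α → ℕ} (hi : PTF i) (hj : PTF j) : PTF (fun a => s2 (i a) (j a)) := by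
  unfold s2
  fun_prop

theorem ptf_raw2 {φ : α → Cnf} (h : PTF φ) : PTF (fun a => raw2 (φ a)) := by
  unfold raw2
  fun_prop

/-- The encoded reduction is polynomial-time. -/
theorem ptf_encode2 {φ : α → Cnf} (h : PTF φ) : PTF (fun a => (inst2 (φ a)).encode) := by
  have h1 : PTF (fun a => bitEncode (raw2 (pad (φ a)))) :=
    ((EncP.list (EncP.list EncP.bool)).prod (EncP.list (EncP.list EncP.bool))).apply
      (ptf_raw2 (ptf_pad h))
  exact h1.congr fun a => (encode_inst2 (φ a)).symm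

end ptf

/-- **Generalized PCG recognition with stars is NP-hard.** -/
theorem hard_star {L : List Bool → Bool} (h : L ∈ N68a2faeb.NP) :
    ∃ f : List Bool → List Bool, N68a2faeb.IsPolyTime f ∧
      ∀ x, L x = true ↔ GLangP (fun _ M => M.IsStar) (f x) := by
  obtain ⟨g, hg, h1⟩ := cookLevin h
  refine ⟨fun x => (inst2 (g x)).encode, (ptf_encode2 hg).isPolyTime (EncP.list EncP.bool),
    fun x => ?_⟩
  rw [h1]
  have e : Satisf (g x) ↔ Sat (g x) := Iff.rfl
  rw [e]
  constructor
  · intro h2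
    obtain ⟨M, m1, m2⟩ := star_of_sat h2
    exact ⟨_, rfl, M, m1, m2⟩
  · rintro ⟨I, hI, M, m1, m2⟩
    obtain rfl : I = inst2 (g x) := encode_inj hI
    exact sat_of_star m1 m2

end Star

end Pool.Agent.PCG
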